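import Pool.Agent.X99.SY.A

/-!
The exponential bound for the proportion of the relations which are invariant under `G` and under a group of permutations
of the coordinates and which are not rich.
-/

set_option autoImplicit false

namespace Pool.Agent.X99.SY

open Finset Pool.Agent.W994.AR

variable {B : Type}

theorem sym_count_aux (G : Subgroup (Equiv.Perm B)) (M k L : ℕ) (hM : 0 < M)
    (hk : 2 * (2 ^ M * (2 ^ M * L)) ≤ k) (H : Subgroup (Equiv.Perm (Fin k))) [hF : Finite (Orb G (Fin M))]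
    [Finite (Orb G (Fin k))] :
    (Nat.card {R : SymRel G H // ¬ Rich G (Fin M) R.1.1} : ℝ) ≤
      Nat.card (Orb G (Fin M)) *
        ((1 - (2⁻¹ : ℝ) ^ Nat.card (Orb G (Fin M))) ^ L * Nat.card (SymRel G H)) := by
  classical
  have := Fintype.ofFinite (Orb G (Fin M))
  have := finite_orb2 G H
  have := Fintype.ofFinite (Orb2 G H)
  -- the sizes
  let cc : ℕ → ℕ := fun j => 1 + 2 ^ M * j
  have hc0 : ∀ j, 0 < cc j := fun j => by simp only [cc]; omega
  have hc1 : ∀ j, cc j ≡ 1 [MOD 2 ^ M] := fun j => by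
    simp only [cc]
    unfold Nat.ModEq
    rw [Nat.add_mul_mod_self_left]
  have hck : ∀ j, j < L → 2 * (2 ^ M * cc j) ≤ k := by
    intro j hj
    refine le_trans ?_ hk
    apply Nat.mul_le_mul_left
    apply Nat.mul_le_mul_left
    have h1 : 2 ^ M * (j + 1) ≤ 2 ^ M * L := Nat.mul_le_mul_left _ hj
    have h2 : 1 ≤ 2 ^ M := Nat.one_le_two_pow
    simp only [cc]
    rw [mul_add] at h1
    omega
  -- the map on orbits
  let φ : ℕ → Orb G (Fin M) → Orb2 G H := fun j =>
    Quotient.map' (s₁ := orb G (Fin M)) (s₂ := orb2 G H) (fun u => u ∘ wd M k hM (cc j))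
      (fun u v h => Same2.of_same (Same.comp h _))
  have hφ : ∀ j u, φ j (Quotient.mk (orb G (Fin M)) u) = Quotient.mk (orb2 G H) (u ∘ wd M k hM (cc j)) :=
    fun j u => rfl
  let ncO : Finset (Orb G (Fin M)) := Finset.univ.filter (fun o => ∃ u, NC u ∧ Quotient.mk (orb G (Fin M)) u = o)
  have key : ∀ j j', j < L → j' < L → ∀ u v : Fin M → B, NC u →
      Quotient.mk (orb2 G H) (u ∘ wd M k hM (cc j)) = Quotient.mk (orb2 G H) (v ∘ wd M k hM (cc j')) →
      j = j' ∧ Same G u v := by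
    intro j j' hj hj' u v hu h
    obtain ⟨σ, _, g, hg, h1⟩ : Same2 G H (u ∘ wd M k hM (cc j)) (v ∘ wd M k hM (cc j')) := Quotient.exact h
    obtain ⟨h2, h3⟩ := wd_differ hM (hc0 j) (hc0 j') (hc1 j) (hc1 j') (hck j hj) (hck j' hj') hu hg h1
    refine ⟨?_, h3⟩
    simp only [cc] at h2
    have h4 : 2 ^ M * j = 2 ^ M * j' := by omega
    exact Nat.eq_of_mul_eq_mul_left (by positivity) h4
  let D : ℕ → Finset (Orb2 G H) := fun j => ncO.image (φ j)
  let T : Orb G (Fin M) → ℕ → Finset (Orb2 G H) := fun o j => (ncO.erase o).image (φ j)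
  have hcount : ∀ o, (((Finset.univ : Finset (Finset (Orb2 G H))).filter
      (fun R => ∀ w ∈ Finset.range L, R ∩ D w ≠ T o w)).card : ℝ) ≤
      (1 - (2⁻¹ : ℝ) ^ Nat.card (Orb G (Fin M))) ^ L * 2 ^ Fintype.card (Orb2 G H) := by
    intro o
    have h0 := count (Ω := Orb2 G H) (Nat.card (Orb G (Fin M))) (Finset.range L) D (T o) ?_ ?_ ?_
    · rw [card_range] at h0
      exact h0
    · intro w _
      exact Finset.image_subset_image (Finset.erase_subset _ _)
    · intro w _
      rw [Nat.card_eq_fintype_card]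
      exact (Finset.card_image_le).trans (Finset.card_le_univ _)
    · intro w hw w' hw' hne
      rw [Finset.disjoint_left]
      intro x hx hx'
      obtain ⟨o1, ho1, h1⟩ := Finset.mem_image.1 hx
      obtain ⟨o2, ho2, h2⟩ := Finset.mem_image.1 hx'
      obtain ⟨u, hu, rfl⟩ := (Finset.mem_filter.1 ho1).2
      obtain ⟨v, hv, rfl⟩ := (Finset.mem_filter.1 ho2).2
      rw [← h2, hφ, hφ] at h1
      exact hne (key w w' (Finset.mem_range.1 hw) (Finset.mem_range.1 hw') u v hu h1).1
  -- the number of invariant relations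
  have hInv : Nat.card (SymRel G H) = 2 ^ Fintype.card (Orb2 G H) := by
    rw [Nat.card_congr (symEquiv G H), Nat.card_eq_fintype_card, Fintype.card_set]
  -- transfer
  let F : {R : SymRel G H // ¬ Rich G (Fin M) R.1.1} → Finset (Orb2 G H) := fun R =>
    (symEquiv G H R.1).toFinset
  have hFinj : Function.Injective F := by
    intro R R' h
    apply Subtype.ext
    apply (symEquiv G H).injective
    exact Set.toFinset_inj.1 h
  have hmem : ∀ (R : SymRel G H) (v : Fin k → B),
      (Quotient.mk (orb2 G H) v ∈ (symEquiv G H R).toFinset) ↔ v ∈ R.1.1 := by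
    intro R v
    rw [Set.mem_toFinset, mem_symEquiv]
  have himg : ∀ R, F R ∈ (Finset.univ : Finset (Orb G (Fin M))).biUnion (fun o =>
      (Finset.univ : Finset (Finset (Orb2 G H))).filter (fun R => ∀ w ∈ Finset.range L, R ∩ D w ≠ T o w)) := by
    intro R
    have hR := R.2
    unfold Rich at hR
    push Not at hR
    obtain ⟨v, hv, hbad⟩ := hR
    rw [Finset.mem_biUnion]
    refine ⟨Quotient.mk (orb G (Fin M)) v, Finset.mem_univ _, ?_⟩
    rw [Finset.mem_filter]
    refine ⟨Finset.mem_univ _, ?_⟩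
    intro A hA hEq
    have hAL := Finset.mem_range.1 hA
    have hvnc : Quotient.mk (orb G (Fin M)) v ∈ ncO :=
      Finset.mem_filter.2 ⟨Finset.mem_univ _, v, hv, rfl⟩
    have h1 : v ∘ wd M k hM (cc A) ∉ R.1.1.1 := by
      intro hin
      have h2 : φ A (Quotient.mk (orb G (Fin M)) v) ∈ F R ∩ D A := by
        rw [Finset.mem_inter]
        refine ⟨?_, Finset.mem_image_of_mem _ hvnc⟩
        rw [hφ]
        exact (hmem R.1 _).2 hin
      rw [hEq] at h2
      obtain ⟨o', ho', h3⟩ := Finset.mem_image.1 h2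
      obtain ⟨ho1, ho2⟩ := Finset.mem_erase.1 ho'
      obtain ⟨u', hu', rfl⟩ := (Finset.mem_filter.1 ho2).2
      rw [hφ, hφ] at h3
      exact ho1 (Quotient.sound (key A A hAL hAL u' v hu' h3).2)
    obtain ⟨u, hu, hus, hun⟩ := hbad (wd M k hM (cc A)) h1
    apply hun
    have h2 : φ A (Quotient.mk (orb G (Fin M)) u) ∈ T (Quotient.mk (orb G (Fin M)) v) A := by
      apply Finset.mem_image_of_mem
      rw [Finset.mem_erase]
      refine ⟨fun h => hus (Quotient.exact h), Finset.mem_filter.2 ⟨Finset.mem_univ _, u, hu, rfl⟩⟩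
    rw [← hEq, Finset.mem_inter, hφ] at h2
    exact (hmem R.1 _).1 h2.1
  have hle : Nat.card {R : SymRel G H // ¬ Rich G (Fin M) R.1.1} ≤
      ((Finset.univ : Finset (Orb G (Fin M))).biUnion (fun o =>
      (Finset.univ : Finset (Finset (Orb2 G H))).filter
        (fun R => ∀ w ∈ Finset.range L, R ∩ D w ≠ T o w))).card := by
    have : Finite (SymRel G H) := finite_sym G H
    have := Fintype.ofFinite {R : SymRel G H // ¬ Rich G (Fin M) R.1.1}
    rw [Nat.card_eq_fintype_card, ← Finset.card_univ]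
    exact Finset.card_le_card_of_injOn F (fun R _ => himg R) (fun _ _ _ _ h => hFinj h)
  calc (Nat.card {R : SymRel G H // ¬ Rich G (Fin M) R.1.1} : ℝ)
      ≤ (((Finset.univ : Finset (Orb G (Fin M))).biUnion (fun o =>
      (Finset.univ : Finset (Finset (Orb2 G H))).filter
        (fun R => ∀ w ∈ Finset.range L, R ∩ D w ≠ T o w))).card : ℝ) := by exact_mod_cast hle
    _ ≤ ∑ o : Orb G (Fin M), (((Finset.univ : Finset (Finset (Orb2 G H))).filter
        (fun R => ∀ w ∈ Finset.range L, R ∩ D w ≠ T o w)).card : ℝ) := by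
        exact_mod_cast Finset.card_biUnion_le
    _ ≤ ∑ o : Orb G (Fin M), (1 - (2⁻¹ : ℝ) ^ Nat.card (Orb G (Fin M))) ^ L *
        2 ^ Fintype.card (Orb2 G H) := Finset.sum_le_sum (fun o _ => hcount o)
    _ = _ := by
        rw [Finset.sum_const, Finset.card_univ, nsmul_eq_mul, hInv, Nat.card_eq_fintype_card]
        push_cast
        rfl

/-- The proportion of the relations that are not rich is exponentially small in the arity, uniformly in the group of
permutations of the coordinates. -/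
theorem sym_bound (G : Subgroup (Equiv.Perm B)) (M : ℕ) (hM : 0 < M) (hfin : ∀ k, Finite (Orb G (Fin k))) :
    ∃ C δ : ℝ, 0 < C ∧ 0 < δ ∧ ∀ (k : ℕ) (H : Subgroup (Equiv.Perm (Fin k))),
      (Nat.card {R : SymRel G H // ¬ Rich G (Fin M) R.1.1} : ℝ) ≤
        C * Real.exp (-(δ * k)) * Nat.card (SymRel G H) := by
  set N := Nat.card (Orb G (Fin M)) with hN
  set P : ℕ := 2 * (2 ^ M * 2 ^ M) with hP
  have hP0 : 0 < P := by positivity
  have hPr : (0 : ℝ) < P := by exact_mod_cast hP0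
  have hx0 : (0 : ℝ) < (2⁻¹ : ℝ) ^ N := by positivity
  have hx1 : (2⁻¹ : ℝ) ^ N ≤ 1 := pow_le_one₀ (by norm_num) (by norm_num)
  refine ⟨(N + 1) * Real.exp ((2⁻¹ : ℝ) ^ N), (2⁻¹ : ℝ) ^ N / P, by positivity, by positivity, ?_⟩
  intro k H
  have := hfin k
  have := hfin M
  set L := k / P with hL
  have hkL : 2 * (2 ^ M * (2 ^ M * L)) ≤ k := by
    have h1 : P * L ≤ k := by rw [hL]; exact Nat.mul_div_le k P
    have h2 : 2 * (2 ^ M * (2 ^ M * L)) = P * L := by rw [hP]; ring
    rw [h2]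
    exact h1
  have h := sym_count_aux G M k L hM hkL H
  rw [← hN] at h
  refine h.trans ?_
  have h1 : (1 - (2⁻¹ : ℝ) ^ N) ^ L ≤ Real.exp (-((2⁻¹ : ℝ) ^ N * L)) := by
    have h2 : 1 - (2⁻¹ : ℝ) ^ N ≤ Real.exp (-(2⁻¹ : ℝ) ^ N) := by
      have := Real.add_one_le_exp (-(2⁻¹ : ℝ) ^ N)
      linarith
    calc (1 - (2⁻¹ : ℝ) ^ N) ^ L ≤ Real.exp (-(2⁻¹ : ℝ) ^ N) ^ L :=
          pow_le_pow_left₀ (by linarith) h2 _
      _ = _ := by
          rw [← Real.exp_nat_mul]
          congr 1
          ring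
  have h3 : (k : ℝ) / P - 1 ≤ L := by
    have h4 : (k : ℝ) < P * (L + 1) := by
      have : k < P * (L + 1) := by rw [hL]; exact Nat.lt_mul_div_succ k hP0
      exact_mod_cast this
    rw [sub_le_iff_le_add, div_le_iff₀ hPr]
    linarith
  have h5 : Real.exp (-((2⁻¹ : ℝ) ^ N * L)) ≤ Real.exp ((2⁻¹ : ℝ) ^ N) * Real.exp (-((2⁻¹ : ℝ) ^ N / P * k)) := by
    rw [← Real.exp_add]
    apply Real.exp_le_exp.2
    have h6 := mul_le_mul_of_nonneg_left h3 hx0.le
    have h7 : (2⁻¹ : ℝ) ^ N * ((k : ℝ) / P - 1) = (2⁻¹ : ℝ) ^ N / P * k - (2⁻¹ : ℝ) ^ N := by ring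
    rw [h7] at h6
    linarith
  have hInv0 : (0 : ℝ) ≤ Nat.card (SymRel G H) := Nat.cast_nonneg _
  have h8 : (0 : ℝ) ≤ Real.exp ((2⁻¹ : ℝ) ^ N) * Real.exp (-((2⁻¹ : ℝ) ^ N / P * k)) := by positivity
  calc (N : ℝ) * ((1 - (2⁻¹ : ℝ) ^ N) ^ L * Nat.card (SymRel G H))
      ≤ N * (Real.exp ((2⁻¹ : ℝ) ^ N) * Real.exp (-((2⁻¹ : ℝ) ^ N / P * k)) * Nat.card (SymRel G H)) := by
        apply mul_le_mul_of_nonneg_left _ (Nat.cast_nonneg _)
        exact mul_le_mul_of_nonneg_right (h1.trans h5) hInv0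
    _ ≤ (N + 1) * (Real.exp ((2⁻¹ : ℝ) ^ N) * Real.exp (-((2⁻¹ : ℝ) ^ N / P * k)) * Nat.card (SymRel G H)) := by
        apply mul_le_mul_of_nonneg_right (by linarith) (mul_nonneg h8 hInv0)
    _ = _ := by ring

/-- a union bound for finite products -/
theorem pi_bad {t : ℕ} (X : Fin t → Type) [hX : ∀ j, Finite (X j)] (P : ∀ j, X j → Prop) (e : ℝ)
    (h : ∀ j, (Nat.card {x : X j // ¬ P j x} : ℝ) ≤ e * Nat.card (X j)) :
    (Nat.card {x : ∀ j, X j // ¬ ∀ j, P j (x j)} : ℝ) ≤ t * e * Nat.card (∀ j, X j) := by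
  classical
  have hFt : ∀ j, Fintype (X j) := fun j => Fintype.ofFinite _
  let bad : ∀ j : Fin t, Finset (∀ i, X i) := fun j =>
    Fintype.piFinset (fun i => if i = j then Finset.univ.filter (fun R => ¬ P i R) else Finset.univ)
  have hcard : ∀ j, ((bad j).card : ℝ) ≤ e * Nat.card (∀ j, X j) := by
    intro j
    simp only [bad, Fintype.card_piFinset]
    rw [← Finset.mul_prod_erase _ _ (Finset.mem_univ j)]
    rw [if_pos rfl]
    have h1 : ∏ x ∈ Finset.univ.erase j, (if x = j then Finset.univ.filter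
        (fun R : X x => ¬ P x R) else Finset.univ).card = ∏ x ∈ Finset.univ.erase j, Fintype.card (X x) := by
      apply Finset.prod_congr rfl
      intro x hx
      rw [if_neg (Finset.ne_of_mem_erase hx), Finset.card_univ]
    rw [h1]
    have h2 : Nat.card (∀ j, X j) = Fintype.card (X j) * ∏ x ∈ Finset.univ.erase j, Fintype.card (X x) := by
      rw [Nat.card_eq_fintype_card, Fintype.card_pi]
      exact (Finset.mul_prod_erase Finset.univ (fun x => Fintype.card (X x)) (Finset.mem_univ j)).symm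
    rw [h2]
    have h3 : ((Finset.univ.filter (fun R : X j => ¬ P j R)).card : ℝ) ≤ e * Fintype.card (X j) := by
      have h4 := h j
      rw [Nat.card_eq_fintype_card, Fintype.card_subtype, Nat.card_eq_fintype_card] at h4
      exact h4
    push_cast
    rw [← mul_assoc]
    exact mul_le_mul_of_nonneg_right h3 (by positivity)
  have hle : Nat.card {R : ∀ j, X j // ¬ ∀ j, P j (R j)} ≤ (Finset.univ.biUnion bad).card := by
    rw [Nat.card_eq_fintype_card, Fintype.card_subtype]
    apply Finset.card_le_card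
    intro R hR
    obtain ⟨j, hj⟩ := not_forall.1 (Finset.mem_filter.1 hR).2
    rw [Finset.mem_biUnion]
    refine ⟨j, Finset.mem_univ _, ?_⟩
    rw [Fintype.mem_piFinset]
    intro i
    by_cases hij : i = j
    · subst hij
      rw [if_pos rfl, Finset.mem_filter]
      exact ⟨Finset.mem_univ _, hj⟩
    · rw [if_neg hij]
      exact Finset.mem_univ _
  calc (Nat.card {R : ∀ j, X j // ¬ ∀ j, P j (R j)} : ℝ)
      ≤ ((Finset.univ.biUnion bad).card : ℝ) := by exact_mod_cast hle
    _ ≤ ∑ j, ((bad j).card : ℝ) := by exact_mod_cast Finset.card_biUnion_le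
    _ ≤ ∑ _j : Fin t, e * Nat.card (∀ j, X j) := Finset.sum_le_sum (fun j _ => hcard j)
    _ = _ := by
        rw [Finset.sum_const, Finset.card_univ, Fintype.card_fin, nsmul_eq_mul]
        ring

/-- the number of the relations which contain none of the constant tuples of the constraint language `Γ` -/
theorem sym_const_count {G : Subgroup (Equiv.Perm B)} {ι : Type} {arΓ : ι → ℕ} (Γ : Str ι arΓ B) (k : ℕ) (hk : 1 ≤ k)
    (H : Subgroup (Equiv.Perm (Fin k))) [Finite (Orb G (Fin k))] :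
    Nat.card {R : SymRel G H // ∀ b, (∀ l, (Γ l).Nonempty → (fun _ => b) ∈ Γ l) →
      (fun _ => b) ∉ R.1.1} * 2 ^ constOrbits G Γ = Nat.card (SymRel G H) := by
  classical
  have := finite_orb2 G H
  have := Fintype.ofFinite (Orb2 G H)
  let K : Set (Orb2 G H) := {o | ∃ b, o = Quotient.mk (orb2 G H) (fun _ => b) ∧
    ∀ l, (Γ l).Nonempty → (fun _ => b) ∈ Γ l}
  have hsame : ∀ b b', Quotient.mk (orb2 G H) (fun _ => b) =
      Quotient.mk (orb2 G H) (fun _ => b') ↔ ∃ g ∈ G, g b = b' := by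
    intro b b'
    constructor
    · intro h
      obtain ⟨σ, _, g, hg, h⟩ : Same2 G H (fun _ : Fin k => b) (fun _ => b') := Quotient.exact h
      exact ⟨g, hg, h ⟨0, hk⟩⟩
    · rintro ⟨g, hg, h⟩
      exact Quotient.sound (⟨1, H.one_mem, g, hg, fun _ => h⟩ : Same2 G H (fun _ : Fin k => b) (fun _ => b'))
  have hKcard : K.ncard = constOrbits G Γ := by
    unfold constOrbits
    let ψ : Orb2 G H → Set B := fun o => {x | o = Quotient.mk (orb2 G H) (fun _ => x)}
    have himg : {O : Set B | ∃ b, O = {x | ∃ g ∈ G, g b = x} ∧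
        ∀ l, (Γ l).Nonempty → (fun _ => b) ∈ Γ l} = ψ '' K := by
      ext O
      constructor
      · rintro ⟨b, rfl, hb⟩
        refine ⟨_, ⟨b, rfl, hb⟩, ?_⟩
        ext x
        exact hsame b x
      · rintro ⟨_, ⟨b, rfl, hb⟩, rfl⟩
        refine ⟨b, ?_, hb⟩
        ext x
        exact hsame b x
    rw [himg, Set.InjOn.ncard_image]
    rintro _ ⟨b, rfl, _⟩ _ ⟨b', rfl, _⟩ h
    have h1 : b ∈ ψ (Quotient.mk (orb2 G H) (fun _ => b)) := rfl
    rw [h] at h1
    exact h1.symm
  let E1 : {R : SymRel G H // ∀ b, (∀ l, (Γ l).Nonempty → (fun _ => b) ∈ Γ l) →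
      (fun _ => b) ∉ R.1.1} ≃ {X : Set (Orb2 G H) // ∀ o ∈ K, o ∉ X} :=
    (symEquiv G H).subtypeEquiv (by
      intro R
      constructor
      · rintro h o ⟨b, rfl, hb⟩ ho
        exact h b hb ((mem_symEquiv R _).1 ho)
      · intro h b hb hR
        exact h _ ⟨b, rfl, hb⟩ ((mem_symEquiv R _).2 hR))
  let E2 : {X : Set (Orb2 G H) // ∀ o ∈ K, o ∉ X} ≃ Set {o : Orb2 G H // o ∉ K} :=
    { toFun := fun X => {o | o.1 ∈ X.1}
      invFun := fun Y => ⟨{o | ∃ h : o ∉ K, (⟨o, h⟩ : {o : Orb2 G H // o ∉ K}) ∈ Y}, by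
        rintro o ho ⟨h, _⟩
        exact h ho⟩
      left_inv := by
        rintro ⟨X, hX⟩
        apply Subtype.ext
        ext o
        constructor
        · rintro ⟨_, h⟩
          exact h
        · intro h
          exact ⟨fun hK => hX o hK h, h⟩
      right_inv := by
        intro Y
        ext ⟨o, ho⟩
        constructor
        · rintro ⟨_, h⟩
          exact h
        · intro h
          exact ⟨ho, h⟩ }
  rw [Nat.card_congr (E1.trans E2), Nat.card_congr (symEquiv G H), Nat.card_eq_fintype_card,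
    Fintype.card_set, Nat.card_eq_fintype_card, Fintype.card_set, ← pow_add, ← hKcard]
  congr 1
  have h1 : Fintype.card {o : Orb2 G H // o ∉ K} = Fintype.card (Orb2 G H) - Fintype.card K := by
    exact Fintype.card_subtype_compl (fun o => o ∈ K)
  have h2 : Fintype.card K = K.ncard := by
    rw [← Nat.card_eq_fintype_card]
    rfl
  have h3 : Fintype.card K ≤ Fintype.card (Orb2 G H) := Fintype.card_subtype_le _
  omega

end Pool.Agent.X99.SY
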