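import Pool.Agent.W994.AR.Final

/-!
Relations invariant under a group of permutations of the domain and under a group of permutations of the coordinates:
all but an exponentially small proportion of them are rich.
-/

set_option autoImplicit false

namespace Pool.Agent.X99.SY

open Finset Pool.Agent.W994.AR

variable {B : Type}

/-- `R` is invariant under the group `H` of permutations of the coordinates -/
def CoordInvar {k : ℕ} (H : Subgroup (Equiv.Perm (Fin k))) (R : Set (Fin k → B)) : Prop :=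
  ∀ σ ∈ H, ∀ v ∈ R, (fun i => v (σ i)) ∈ R

/-- the relations of arity `k` which are invariant under `G` (on the domain) and `H` (on the coordinates) -/
abbrev SymRel (G : Subgroup (Equiv.Perm B)) {k : ℕ} (H : Subgroup (Equiv.Perm (Fin k))) : Type :=
  {R : InvRel G (Fin k) // CoordInvar H R.1}

/-- `v` is an image of `u` under `G` and a permutation in `H` of the coordinates -/
def Same2 (G : Subgroup (Equiv.Perm B)) {k : ℕ} (H : Subgroup (Equiv.Perm (Fin k))) (u v : Fin k → B) : Prop :=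
  ∃ σ ∈ H, ∃ g ∈ G, ∀ i, g (u (σ i)) = v i

variable {G : Subgroup (Equiv.Perm B)} {k : ℕ} {H : Subgroup (Equiv.Perm (Fin k))}

theorem Same2.refl (G : Subgroup (Equiv.Perm B)) {k : ℕ} (H : Subgroup (Equiv.Perm (Fin k))) (u : Fin k → B) :
    Same2 G H u u := ⟨1, H.one_mem, 1, G.one_mem, fun _ => rfl⟩

theorem Same2.symm {u v : Fin k → B} (h : Same2 G H u v) : Same2 G H v u := by
  obtain ⟨σ, hσ, g, hg, h⟩ := h
  refine ⟨σ⁻¹, H.inv_mem hσ, g⁻¹, G.inv_mem hg, fun i => ?_⟩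
  rw [← h]
  simp

theorem Same2.trans {u v w : Fin k → B} (h : Same2 G H u v) (h' : Same2 G H v w) : Same2 G H u w := by
  obtain ⟨σ, hσ, g, hg, h⟩ := h
  obtain ⟨τ, hτ, g', hg', h'⟩ := h'
  refine ⟨σ * τ, H.mul_mem hσ hτ, g' * g, G.mul_mem hg' hg, fun i => ?_⟩
  rw [← h' i, ← h (τ i)]
  rfl

theorem Same2.of_same {u v : Fin k → B} (h : Same G u v) : Same2 G H u v := by
  obtain ⟨g, hg, h⟩ := h
  exact ⟨1, H.one_mem, g, hg, h⟩

theorem Same2.mem {u v : Fin k → B} (h : Same2 G H u v) (R : SymRel G H) (hu : u ∈ R.1.1) : v ∈ R.1.1 := by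
  obtain ⟨σ, hσ, g, hg, h⟩ := h
  have h1 := R.2 σ hσ u hu
  have h2 := R.1.2 g hg _ h1
  have e : (fun i => g (u (σ i))) = v := funext h
  rwa [e] at h2

/-- the orbit equivalence relation -/
def orb2 (G : Subgroup (Equiv.Perm B)) {k : ℕ} (H : Subgroup (Equiv.Perm (Fin k))) : Setoid (Fin k → B) where
  r := Same2 G H
  iseqv := ⟨Same2.refl G H, Same2.symm, Same2.trans⟩

/-- the orbits of tuples -/
abbrev Orb2 (G : Subgroup (Equiv.Perm B)) {k : ℕ} (H : Subgroup (Equiv.Perm (Fin k))) : Type := Quotient (orb2 G H)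

/-- invariant relations are sets of orbits -/
noncomputable def symEquiv (G : Subgroup (Equiv.Perm B)) {k : ℕ} (H : Subgroup (Equiv.Perm (Fin k))) :
    SymRel G H ≃ Set (Orb2 G H) where
  toFun R := {o | ∃ v ∈ R.1.1, (Quotient.mk (orb2 G H) v) = o}
  invFun X := ⟨⟨{v | (Quotient.mk (orb2 G H) v) ∈ X}, by
    intro g hg v hv
    have : (Quotient.mk (orb2 G H) v) = Quotient.mk (orb2 G H) (fun i => g (v i)) :=
      Quotient.sound (⟨1, H.one_mem, g, hg, fun _ => rfl⟩ : Same2 G H v (fun i => g (v i)))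
    simp only [Set.mem_ofPred_eq] at hv ⊢
    rw [← this]
    exact hv⟩, by
    intro σ hσ v hv
    have : (Quotient.mk (orb2 G H) v) = Quotient.mk (orb2 G H) (fun i => v (σ i)) :=
      Quotient.sound (⟨σ, hσ, 1, G.one_mem, fun _ => rfl⟩ : Same2 G H v (fun i => v (σ i)))
    simp only [Set.mem_ofPred_eq] at hv ⊢
    rw [← this]
    exact hv⟩
  left_inv R := by
    apply Subtype.ext
    apply Subtype.ext
    ext v
    constructor
    · rintro ⟨u, hu, h⟩
      exact Same2.mem (Quotient.exact h) R hu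
    · intro hv
      exact ⟨v, hv, rfl⟩
  right_inv X := by
    ext o
    constructor
    · rintro ⟨v, hv, rfl⟩
      exact hv
    · intro ho
      obtain ⟨v, rfl⟩ := Quotient.exists_rep o
      exact ⟨v, ho, rfl⟩

theorem mem_symEquiv (R : SymRel G H) (v : Fin k → B) :
    Quotient.mk (orb2 G H) v ∈ symEquiv G H R ↔ v ∈ R.1.1 := by
  constructor
  · rintro ⟨u, hu, h⟩
    exact Same2.mem (Quotient.exact h) R hu
  · intro hv
    exact ⟨v, hv, rfl⟩

theorem finite_orb2 (G : Subgroup (Equiv.Perm B)) {k : ℕ} (H : Subgroup (Equiv.Perm (Fin k)))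
    [Finite (Orb G (Fin k))] : Finite (Orb2 G H) := by
  refine Finite.of_surjective (Quotient.map' (s₁ := orb G (Fin k)) (s₂ := orb2 G H) (fun u => u)
    (fun u v h => Same2.of_same h)) ?_
  intro o
  obtain ⟨v, rfl⟩ := Quotient.exists_rep o
  exact ⟨Quotient.mk (orb G (Fin k)) v, rfl⟩

theorem finite_sym (G : Subgroup (Equiv.Perm B)) {k : ℕ} (H : Subgroup (Equiv.Perm (Fin k)))
    [Finite (Orb G (Fin k))] : Finite (SymRel G H) := by
  have := finite_orb2 G H
  exact Finite.of_equiv _ (symEquiv G H).symm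

/-- the word which sends the positions `p` with `2 ^ i * c ≤ p < 2 ^ (i + 1) * c`, `1 ≤ i < M`, to `i` and all other
positions to `0` -/
def wd (M k : ℕ) (hM : 0 < M) (c : ℕ) : Fin k → Fin M := fun p =>
  if h : Nat.log 2 ((p : ℕ) / c) < M then ⟨Nat.log 2 ((p : ℕ) / c), h⟩ else ⟨0, hM⟩

theorem wd_eq_iff {M k : ℕ} (hM : 0 < M) {c : ℕ} (hc : 0 < c) (p : Fin k) (i : Fin M) (hi : i ≠ ⟨0, hM⟩) :
    wd M k hM c p = i ↔ 2 ^ (i : ℕ) * c ≤ (p : ℕ) ∧ (p : ℕ) < 2 ^ ((i : ℕ) + 1) * c := by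
  have hi0 : (i : ℕ) ≠ 0 := fun h => hi (Fin.ext h)
  rw [← Nat.le_div_iff_mul_le hc, ← Nat.div_lt_iff_lt_mul hc, ← Nat.log_eq_iff (Or.inl hi0)]
  unfold wd
  split_ifs with h
  · rw [Fin.ext_iff]
  · constructor
    · intro h1
      exact absurd h1.symm hi
    · intro h1
      exact absurd (h1 ▸ i.2) h

open Classical in
theorem fiber_card {M k : ℕ} (hM : 0 < M) {c : ℕ} (hc : 0 < c) (hk : 2 ^ M * c ≤ k) (i : Fin M) (hi : i ≠ ⟨0, hM⟩) :
    ((univ : Finset (Fin k)).filter (fun p => wd M k hM c p = i)).card = 2 ^ (i : ℕ) * c := by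
  have h1 : 2 ^ ((i : ℕ) + 1) * c ≤ k :=
    (Nat.mul_le_mul_right c (Nat.pow_le_pow_right (by norm_num) (by have := i.2; omega))).trans hk
  have h2 : (((univ : Finset (Fin k)).filter (fun p => wd M k hM c p = i)).map Fin.valEmbedding) =
      Finset.Ico (2 ^ (i : ℕ) * c) (2 ^ ((i : ℕ) + 1) * c) := by
    ext x
    rw [mem_map, mem_Ico]
    constructor
    · rintro ⟨p, hp, rfl⟩
      rw [mem_filter] at hp
      exact (wd_eq_iff hM hc p i hi).1 hp.2
    · intro hx
      have hxk : x < k := lt_of_lt_of_le hx.2 h1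
      exact ⟨⟨x, hxk⟩, mem_filter.2 ⟨mem_univ _, (wd_eq_iff hM hc ⟨x, hxk⟩ i hi).2 hx⟩, rfl⟩
  rw [← card_map Fin.valEmbedding, h2, Nat.card_Ico, pow_succ]
  have : 2 ^ (i : ℕ) * 2 * c = 2 ^ (i : ℕ) * c + 2 ^ (i : ℕ) * c := by ring
  omega

open Classical in
/-- the number of the positions with letters in `S` -/
theorem set_card {M k : ℕ} (hM : 0 < M) {c : ℕ} (hc : 0 < c) (hk : 2 ^ M * c ≤ k) (S : Finset (Fin M))
    (hS : (⟨0, hM⟩ : Fin M) ∉ S) :
    ((univ : Finset (Fin k)).filter (fun p => wd M k hM c p ∈ S)).card = (∑ i ∈ S, 2 ^ (i : ℕ)) * c := by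
  have H : Set.MapsTo (wd M k hM c)
      ((((univ : Finset (Fin k)).filter (fun p => wd M k hM c p ∈ S) : Finset (Fin k))) : Set (Fin k))
      (S : Set (Fin M)) := fun p hp => (mem_filter.1 (mem_coe.1 hp)).2
  rw [Finset.card_eq_sum_card_fiberwise H, sum_mul]
  refine sum_congr rfl fun i hi => ?_
  have hi0 : i ≠ ⟨0, hM⟩ := fun h => hS (h ▸ hi)
  rw [← fiber_card hM hc hk i hi0, filter_filter]
  congr 1
  ext p
  simp only [mem_filter, mem_univ, true_and]
  constructor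
  · exact fun h => h.2
  · intro h
    exact ⟨by rw [h]; exact hi, h⟩

theorem sum_lt {M : ℕ} (S : Finset (Fin M)) : ∑ i ∈ S, 2 ^ (i : ℕ) < 2 ^ M := by
  have h : ∑ i ∈ S, 2 ^ (i : ℕ) = ∑ i ∈ S.map Fin.valEmbedding, 2 ^ i := by
    rw [sum_map]
    rfl
  rw [h]
  refine Nat.geomSum_lt le_rfl fun i hi => ?_
  obtain ⟨j, _, rfl⟩ := mem_map.1 hi
  exact j.2

theorem sum_inj {M : ℕ} {S T : Finset (Fin M)} (h : ∑ i ∈ S, 2 ^ (i : ℕ) = ∑ i ∈ T, 2 ^ (i : ℕ)) : S = T := by
  have h1 : ∀ S : Finset (Fin M), ∑ i ∈ S, 2 ^ (i : ℕ) = ∑ i ∈ S.map Fin.valEmbedding, 2 ^ i := by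
    intro S
    rw [sum_map]
    rfl
  rw [h1 S, h1 T] at h
  exact Finset.map_injective _ (Finset.geomSum_injective le_rfl h)

open Classical in
/-- The words of different sizes `c ≡ 1 mod 2 ^ M` separate all orbits of nonconstant tuples, even up to permutations of the
coordinates. -/
theorem wd_differ {G : Subgroup (Equiv.Perm B)} {M k : ℕ} (hM : 0 < M) {c c' : ℕ} (hc : 0 < c) (hc' : 0 < c')
    (h1 : c ≡ 1 [MOD 2 ^ M]) (h1' : c' ≡ 1 [MOD 2 ^ M]) (hk : 2 * (2 ^ M * c) ≤ k) (hk' : 2 * (2 ^ M * c') ≤ k)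
    {u v : Fin M → B} (hu : NC u) {σ : Equiv.Perm (Fin k)} {g : Equiv.Perm B} (hg : g ∈ G)
    (h : ∀ p, g (u (wd M k hM c (σ p))) = v (wd M k hM c' p)) : c = c' ∧ Same G u v := by
  -- the multiplicities of `b` and `g b` are the same
  have hN : ∀ b : B, ((univ : Finset (Fin k)).filter (fun p => u (wd M k hM c p) = b)).card =
      ((univ : Finset (Fin k)).filter (fun p => v (wd M k hM c' p) = g b)).card := by
    intro b
    symm
    refine Finset.card_bij (fun p _ => σ p) ?_ ?_ ?_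
    · intro p hp
      rw [mem_filter] at hp ⊢
      refine ⟨mem_univ _, g.injective ?_⟩
      rw [h p]
      exact hp.2
    · intro p _ q _ hpq
      exact σ.injective hpq
    · intro q hq
      rw [mem_filter] at hq
      refine ⟨σ.symm q, mem_filter.2 ⟨mem_univ _, ?_⟩, by simp⟩
      rw [← h, Equiv.apply_symm_apply, hq.2]
  have hset : ∀ (u : Fin M → B) (c : ℕ) (b : B), 0 < c → 2 * (2 ^ M * c) ≤ k → b ≠ u ⟨0, hM⟩ →
      ((univ : Finset (Fin k)).filter (fun p => u (wd M k hM c p) = b)).card =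
        (∑ i ∈ univ.filter (fun i => u i = b), 2 ^ (i : ℕ)) * c := by
    intro u c b hc hk hb
    have hk2 : 2 ^ M * c ≤ k := by omega
    have e0 := set_card hM hc hk2 (univ.filter (fun i => u i = b))
      (fun hz => hb ((mem_filter.1 hz).2.symm))
    rw [← e0]
    congr 1
    ext p
    simp
  have hbig : ∀ (u : Fin M → B) (c : ℕ), 0 < c → 2 * (2 ^ M * c) ≤ k →
      k < ((univ : Finset (Fin k)).filter (fun p => u (wd M k hM c p) = u ⟨0, hM⟩)).card + 2 ^ M * c := by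
    intro u c hc hk
    have e1 : ((univ : Finset (Fin k)).filter (fun p => u (wd M k hM c p) = u ⟨0, hM⟩)).card +
        ((univ : Finset (Fin k)).filter (fun p => ¬ u (wd M k hM c p) = u ⟨0, hM⟩)).card = k := by
      rw [card_filter_add_card_filter_not, card_univ, Fintype.card_fin]
    have e2 : ((univ : Finset (Fin k)).filter (fun p => ¬ u (wd M k hM c p) = u ⟨0, hM⟩)).card ≤
        ((univ : Finset (Fin k)).filter (fun p => wd M k hM c p ∈ (univ : Finset (Fin M)).erase ⟨0, hM⟩)).card := by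
      refine card_le_card fun p hp => ?_
      rw [mem_filter] at hp ⊢
      refine ⟨mem_univ _, mem_erase.2 ⟨fun e => hp.2 (by rw [e]), mem_univ _⟩⟩
    have hk2 : 2 ^ M * c ≤ k := by omega
    rw [set_card hM hc hk2 _ (notMem_erase _ _)] at e2
    have e3 : (∑ i ∈ (univ : Finset (Fin M)).erase ⟨0, hM⟩, 2 ^ (i : ℕ)) * c < 2 ^ M * c :=
      Nat.mul_lt_mul_of_pos_right (sum_lt _) hc
    omega
  have hgz : g (u ⟨0, hM⟩) = v ⟨0, hM⟩ := by
    by_contra hne
    have e1 := hbig u c hc hk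
    have e2 := hset v c' (g (u ⟨0, hM⟩)) hc' hk' hne
    have e3 : (∑ i ∈ univ.filter (fun i => v i = g (u ⟨0, hM⟩)), 2 ^ (i : ℕ)) * c' < 2 ^ M * c' :=
      Nat.mul_lt_mul_of_pos_right (sum_lt _) hc'
    rw [← e2, ← hN] at e3
    omega
  have hmain : ∀ b : B, b ≠ u ⟨0, hM⟩ → (univ.filter (fun i => u i = b) = univ.filter (fun i => v i = g b)) ∧
      ((∃ i, u i = b) → c = c') := by
    intro b hb
    have hb' : g b ≠ v ⟨0, hM⟩ := fun e => hb (g.injective (by rw [e, hgz]))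
    have e1 := hN b
    rw [hset u c b hc hk hb, hset v c' (g b) hc' hk' hb'] at e1
    have e2 : (∑ i ∈ univ.filter (fun i => u i = b), 2 ^ (i : ℕ)) =
        (∑ i ∈ univ.filter (fun i => v i = g b), 2 ^ (i : ℕ)) := by
      have f1 : (∑ i ∈ univ.filter (fun i => u i = b), 2 ^ (i : ℕ)) * c ≡
          (∑ i ∈ univ.filter (fun i => u i = b), 2 ^ (i : ℕ)) * 1 [MOD 2 ^ M] := h1.mul_left _
      have f2 : (∑ i ∈ univ.filter (fun i => v i = g b), 2 ^ (i : ℕ)) * c' ≡
          (∑ i ∈ univ.filter (fun i => v i = g b), 2 ^ (i : ℕ)) * 1 [MOD 2 ^ M] := h1'.mul_left _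
      rw [e1] at f1
      rw [mul_one] at f1 f2
      exact (f1.symm.trans f2).eq_of_lt_of_lt (sum_lt _) (sum_lt _)
    refine ⟨sum_inj e2, fun ⟨i, hi⟩ => ?_⟩
    rw [← e2] at e1
    have hpos : 0 < ∑ i ∈ univ.filter (fun i => u i = b), 2 ^ (i : ℕ) :=
      sum_pos (fun _ _ => by positivity) ⟨i, mem_filter.2 ⟨mem_univ _, hi⟩⟩
    exact Nat.eq_of_mul_eq_mul_left hpos e1
  constructor
  · obtain ⟨i, j, hij⟩ := hu
    rcases eq_or_ne (u i) (u ⟨0, hM⟩) with e | e
    · exact (hmain (u j) (fun e' => hij (e.trans e'.symm))).2 ⟨j, rfl⟩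
    · exact (hmain (u i) e).2 ⟨i, rfl⟩
  · refine ⟨g, hg, fun i => ?_⟩
    rcases eq_or_ne (u i) (u ⟨0, hM⟩) with e | e
    · rw [e, hgz]
      by_contra hne
      have e1 : g.symm (v i) ≠ u ⟨0, hM⟩ := fun e' => hne (by rw [← hgz, ← e', Equiv.apply_symm_apply])
      have e2 : i ∈ univ.filter (fun i => v i = g (g.symm (v i))) :=
        mem_filter.2 ⟨mem_univ _, by rw [Equiv.apply_symm_apply]⟩
      have e3 : i ∈ (univ : Finset (Fin M)).filter (fun j => v j = g (g.symm (v i))) :=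
        mem_filter.2 ⟨mem_univ _, by rw [Equiv.apply_symm_apply]⟩
      rw [← (hmain (g.symm (v i)) e1).1] at e3
      exact e1 ((mem_filter.1 e3).2.symm.trans e)
    · have e2 : i ∈ (univ : Finset (Fin M)).filter (fun j => u j = u i) := mem_filter.2 ⟨mem_univ _, rfl⟩
      rw [(hmain (u i) e).1] at e2
      exact (mem_filter.1 e2).2.symm

end Pool.Agent.X99.SY
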