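import Pool.Agent.X99.SY.B

/-!
Counting the subsets of a given size of a finite set that avoid prescribed traces on pairwise disjoint sets.
-/

set_option autoImplicit false

namespace Pool.Agent.X99.SY

open Finset

/-- the weight of `R` on the coordinates in `S`: every element is in `R` with probability `p` -/
def wS {Ω : Type} [DecidableEq Ω] (p : ℝ) (S R : Finset Ω) : ℝ := ∏ o ∈ S, (if o ∈ R then p else 1 - p)

variable {Ω κ : Type} [Fintype Ω] [DecidableEq Ω]

omit [Fintype Ω] in
theorem wS_nonneg {p : ℝ} (h0 : 0 ≤ p) (h1 : 0 ≤ 1 - p) (S R : Finset Ω) : 0 ≤ wS p S R := by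
  unfold wS
  refine prod_nonneg fun o _ => ?_
  split_ifs
  · exact h0
  · exact h1

omit [Fintype Ω] in
theorem wS_congr {p : ℝ} {S R R' : Finset Ω} (h : ∀ o ∈ S, o ∈ R ↔ o ∈ R') : wS p S R = wS p S R' := by
  unfold wS
  refine prod_congr rfl fun o ho => ?_
  simp only [h o ho]

theorem wS_split (p : ℝ) (D R : Finset Ω) : wS p univ R = wS p (univ \ D) R * wS p D R := by
  unfold wS
  rw [prod_sdiff (subset_univ D)]

omit [Fintype Ω] in
theorem wS_sum (p : ℝ) (D : Finset Ω) : ∑ E ∈ D.powerset, wS p D E = 1 := by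
  have h := Finset.prod_add (fun _ : Ω => p) (fun _ => 1 - p) D
  have h1 : ∏ i ∈ D, (p + (1 - p)) = 1 := by simp
  rw [h1] at h
  rw [h]
  refine sum_congr rfl fun E hE => ?_
  rw [mem_powerset] at hE
  unfold wS
  rw [← prod_sdiff hE, mul_comm]
  congr 1
  · exact prod_congr rfl fun o ho => if_pos ho
  · exact prod_congr rfl fun o ho => if_neg (mem_sdiff.1 ho).2

omit [Fintype Ω] in
theorem wS_lower {p q : ℝ} (hq0 : 0 ≤ q) (hq : q ≤ p) (hq' : q ≤ 1 - p) (D R : Finset Ω) : q ^ D.card ≤ wS p D R := by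
  unfold wS
  rw [← prod_const]
  refine prod_le_prod (fun _ _ => hq0) fun o _ => ?_
  split_ifs
  · exact hq
  · exact hq'

theorem wcount {p q : ℝ} (hq0 : 0 ≤ q) (hq : q ≤ p) (hq' : q ≤ 1 - p) (d : ℕ) (W : Finset κ)
    (D A : κ → Finset Ω) (hA : ∀ w ∈ W, A w ⊆ D w) (hd : ∀ w ∈ W, (D w).card ≤ d)
    (hdis : ∀ w ∈ W, ∀ w' ∈ W, w ≠ w' → Disjoint (D w) (D w')) :
    ∑ R ∈ (univ : Finset (Finset Ω)).filter (fun R => ∀ w ∈ W, R ∩ D w ≠ A w), wS p univ R ≤ (1 - q ^ d) ^ W.card := by
  classical
  have hp0 : 0 ≤ p := hq0.trans hq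
  have hp1 : 0 ≤ 1 - p := hq0.trans hq'
  have hq1 : q ≤ 1 := by linarith
  have hqd : q ^ d ≤ 1 := pow_le_one₀ hq0 hq1
  induction W using Finset.induction_on with
  | empty =>
    have h := wS_sum p (univ : Finset Ω)
    rw [powerset_univ] at h
    simp [h]
  | insert w0 W hw0 ih =>
    have ih' := ih (fun w hw => hA w (mem_insert_of_mem hw)) (fun w hw => hd w (mem_insert_of_mem hw))
      (fun w hw w' hw' => hdis w (mem_insert_of_mem hw) w' (mem_insert_of_mem hw'))
    set X := (Finset.univ : Finset (Finset Ω)).filter (fun R => ∀ w ∈ W, R ∩ D w ≠ A w) with hX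
    set X0 := X.filter (fun R => R ∩ D w0 = A w0) with hX0
    set Y := (Finset.univ : Finset (Finset Ω)).filter (fun R => ∀ w ∈ insert w0 W, R ∩ D w ≠ A w) with hY
    have hYX : ∑ R ∈ Y, wS p univ R + ∑ R ∈ X0, wS p univ R = ∑ R ∈ X, wS p univ R := by
      have : Y = X.filter (fun R => ¬ (R ∩ D w0 = A w0)) := by
        ext R
        simp only [hY, hX, mem_filter, mem_univ, true_and, mem_insert, forall_eq_or_imp]
        tauto
      rw [this, add_comm]
      exact Finset.sum_filter_add_sum_filter_not X (fun R => R ∩ D w0 = A w0) _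
    have hA0 := hA w0 (mem_insert_self _ _)
    have hdW : ∀ w ∈ W, Disjoint (D w0) (D w) := fun w hw => hdis w0 (mem_insert_self _ _) w (mem_insert_of_mem hw)
      (fun h => hw0 (h ▸ hw))
    have hsum : ∑ R ∈ X, wS p univ R = ∑ x ∈ X0 ×ˢ (D w0).powerset, wS p univ ((x.1 \ D w0) ∪ x.2) := by
      refine Finset.sum_nbij' (fun R => ((R \ D w0) ∪ A w0, R ∩ D w0)) (fun x => (x.1 \ D w0) ∪ x.2) ?_ ?_ ?_ ?_ ?_
      · intro R hR
        simp only [hX, hX0, mem_filter, mem_univ, true_and, mem_product, mem_powerset] at hR ⊢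
        refine ⟨⟨?_, ?_⟩, inter_subset_right⟩
        · intro w hw h
          apply hR w hw
          rw [← h]
          ext o
          simp only [mem_inter, mem_union, mem_sdiff]
          constructor
          · rintro ⟨h1, h2⟩
            exact ⟨Or.inl ⟨h1, fun h3 => Finset.disjoint_left.1 (hdW w hw) h3 h2⟩, h2⟩
          · rintro ⟨h1 | h1, h2⟩
            · exact ⟨h1.1, h2⟩
            · exact absurd h2 (Finset.disjoint_left.1 (hdW w hw) (hA0 h1))
        · ext o
          simp only [mem_inter, mem_union, mem_sdiff]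
          constructor
          · rintro ⟨h1 | h1, h2⟩
            · exact absurd h2 h1.2
            · exact h1
          · intro h
            exact ⟨Or.inr h, hA0 h⟩
      · intro x hx
        simp only [hX, hX0, mem_filter, mem_univ, true_and, mem_product, mem_powerset] at hx ⊢
        intro w hw h
        apply hx.1.1 w hw
        rw [← h]
        ext o
        simp only [mem_inter, mem_union, mem_sdiff]
        constructor
        · rintro ⟨h1, h2⟩
          exact ⟨Or.inl ⟨h1, fun h3 => Finset.disjoint_left.1 (hdW w hw) h3 h2⟩, h2⟩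
        · rintro ⟨h1 | h1, h2⟩
          · exact ⟨h1.1, h2⟩
          · exact absurd h2 (Finset.disjoint_left.1 (hdW w hw) (hx.2 h1))
      · intro R _
        ext o
        simp only [mem_union, mem_sdiff, mem_inter]
        by_cases ho : o ∈ D w0
        · simp [ho]
        · have : o ∉ A w0 := fun h => ho (hA0 h)
          simp [ho, this]
      · intro x hx
        simp only [hX0, mem_filter, mem_product, mem_powerset] at hx
        ext o
        · simp only [mem_union, mem_sdiff]
          by_cases ho : o ∈ D w0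
          · have h1 := Finset.ext_iff.1 hx.1.2 o
            simp only [mem_inter, ho, and_true] at h1
            simp [ho, h1]
          · have h2 : o ∉ A w0 := fun h => ho (hA0 h)
            have h3 : o ∉ x.2 := fun h => ho (hx.2 h)
            simp [ho, h2, h3]
        · simp only [mem_union, mem_sdiff, mem_inter]
          by_cases ho : o ∈ D w0
          · simp [ho]
          · have h3 : o ∉ x.2 := fun h => ho (hx.2 h)
            simp [ho, h3]
      · intro R _
        congr 1
        ext o
        simp only [mem_union, mem_sdiff, mem_inter]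
        by_cases ho : o ∈ D w0
        · simp [ho]
        · have : o ∉ A w0 := fun h => ho (hA0 h)
          simp [ho, this]
    have hprod : ∑ x ∈ X0 ×ˢ (D w0).powerset, wS p univ ((x.1 \ D w0) ∪ x.2) =
        ∑ R ∈ X0, wS p (univ \ D w0) R := by
      rw [sum_product]
      refine sum_congr rfl fun R _ => ?_
      have h1 : ∀ E ∈ (D w0).powerset, wS p univ ((R \ D w0) ∪ E) = wS p (univ \ D w0) R * wS p (D w0) E := by
        intro E hE
        rw [mem_powerset] at hE
        rw [wS_split p (D w0)]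
        congr 1
        · refine wS_congr fun o ho => ?_
          have ho' := (mem_sdiff.1 ho).2
          simp only [mem_union, mem_sdiff]
          constructor
          · rintro (h | h)
            · exact h.1
            · exact absurd (hE h) ho'
          · exact fun h => Or.inl ⟨h, ho'⟩
        · refine wS_congr fun o ho => ?_
          simp only [mem_union, mem_sdiff]
          constructor
          · rintro (h | h)
            · exact absurd ho h.2
            · exact h
          · exact Or.inr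
      rw [sum_congr rfl h1, ← mul_sum, wS_sum, mul_one]
    have hX0' : (∑ R ∈ X, wS p univ R) * q ^ d ≤ ∑ R ∈ X0, wS p univ R := by
      rw [hsum, hprod, sum_mul]
      refine sum_le_sum fun R _ => ?_
      rw [wS_split p (D w0) R]
      refine mul_le_mul_of_nonneg_left ?_ (wS_nonneg hp0 hp1 _ _)
      exact (pow_le_pow_of_le_one hq0 hq1 (hd w0 (mem_insert_self _ _))).trans (wS_lower hq0 hq hq' _ _)
    rw [card_insert_of_notMem hw0, pow_succ]
    have h1 : (0 : ℝ) ≤ 1 - q ^ d := by linarith
    calc ∑ R ∈ Y, wS p univ R ≤ (∑ R ∈ X, wS p univ R) * (1 - q ^ d) := by linarith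
      _ ≤ (1 - q ^ d) ^ W.card * (1 - q ^ d) := mul_le_mul_of_nonneg_right ih' h1

theorem wS_univ (p : ℝ) (R : Finset Ω) : wS p univ R = p ^ R.card * (1 - p) ^ (Fintype.card Ω - R.card) := by
  unfold wS
  rw [← prod_sdiff (subset_univ R), mul_comm]
  congr 1
  · rw [prod_congr rfl (fun o ho => if_pos ho), prod_const]
  · rw [prod_congr rfl (fun o ho => if_neg (mem_sdiff.1 ho).2), prod_const, card_sdiff_of_subset (subset_univ R),
      card_univ]

/-- the largest term of `(M + (N - M)) ^ N` -/
theorem mode (N M : ℕ) (hM : M < N) : N ^ N ≤ (N + 1) * (N.choose M * (M ^ M * (N - M) ^ (N - M))) := by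
  set b : ℕ → ℕ := fun j => N.choose j * (M ^ j * (N - M) ^ (N - j)) with hb
  have hNM : 0 < N - M := by omega
  have hstep : ∀ j, j < N → b (j + 1) * ((j + 1) * (N - M)) = b j * ((N - j) * M) := by
    intro j hj
    have h1 : N.choose (j + 1) * (j + 1) = N.choose j * (N - j) := Nat.choose_succ_right_eq N j
    have h2 : N - j = (N - (j + 1)) + 1 := by omega
    simp only [hb]
    calc N.choose (j + 1) * (M ^ (j + 1) * (N - M) ^ (N - (j + 1))) * ((j + 1) * (N - M))
        = (N.choose (j + 1) * (j + 1)) * (M ^ (j + 1) * ((N - M) ^ (N - (j + 1)) * (N - M))) := by ring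
      _ = (N.choose j * (N - j)) * (M ^ (j + 1) * (N - M) ^ (N - j)) := by rw [h1, ← pow_succ, ← h2]
      _ = _ := by ring
  have hup : ∀ j, j < M → b j ≤ b (j + 1) := by
    intro j hj
    have h1 := hstep j (by omega)
    have h2 : (j + 1) * (N - M) ≤ (N - j) * M := by
      zify [hM.le, (show j ≤ N by omega)]
      have : (j : ℤ) + 1 ≤ M := by exact_mod_cast hj
      nlinarith [(show (0 : ℤ) ≤ N by positivity)]
    have h3 : b j * ((j + 1) * (N - M)) ≤ b (j + 1) * ((j + 1) * (N - M)) := by
      rw [h1]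
      exact Nat.mul_le_mul_left _ h2
    exact Nat.le_of_mul_le_mul_right h3 (by positivity)
  have hdown : ∀ j, M ≤ j → j < N → b (j + 1) ≤ b j := by
    intro j hj hjN
    have h1 := hstep j hjN
    have h2 : (N - j) * M ≤ (j + 1) * (N - M) := by
      zify [hM.le, hjN.le]
      have : (M : ℤ) ≤ j := by exact_mod_cast hj
      have hN : (M : ℤ) < N := by exact_mod_cast hM
      nlinarith [(show (0 : ℤ) ≤ N by positivity)]
    have h3 : b (j + 1) * ((j + 1) * (N - M)) ≤ b j * ((j + 1) * (N - M)) := by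
      rw [h1]
      exact Nat.mul_le_mul_left _ h2
    exact Nat.le_of_mul_le_mul_right h3 (by positivity)
  have hle1 : ∀ i, i ≤ M → b (M - i) ≤ b M := by
    intro i
    induction i with
    | zero => intro _; simp
    | succ i ih =>
      intro hi
      have h1 := hup (M - (i + 1)) (by omega)
      rw [show M - (i + 1) + 1 = M - i by omega] at h1
      exact h1.trans (ih (by omega))
  have hle2 : ∀ i, M + i ≤ N → b (M + i) ≤ b M := by
    intro i
    induction i with
    | zero => intro _; simp
    | succ i ih =>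
      intro hi
      exact (hdown (M + i) (by omega) (by omega)).trans (ih (by omega))
  have hle : ∀ j ∈ range (N + 1), M ^ j * (N - M) ^ (N - j) * N.choose j ≤ b M := by
    intro j hj
    have hj' : j ≤ N := by have := mem_range.1 hj; omega
    have e : M ^ j * (N - M) ^ (N - j) * N.choose j = b j := by simp only [hb]; ring
    rw [e]
    rcases le_total j M with h | h
    · have := hle1 (M - j) (by omega)
      rwa [show M - (M - j) = j by omega] at this
    · have := hle2 (j - M) (by omega)
      rwa [show M + (j - M) = j by omega] at this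
  have hsum := add_pow M (N - M) N
  rw [show M + (N - M) = N by omega] at hsum
  rw [hsum]
  refine (sum_le_sum hle).trans ?_
  rw [sum_const, card_range, smul_eq_mul]

theorem count_size (q : ℝ) (hq0 : 0 ≤ q) (d : ℕ) (W : Finset κ)
    (D A : κ → Finset Ω) (hA : ∀ w ∈ W, A w ⊆ D w) (hd : ∀ w ∈ W, (D w).card ≤ d)
    (hdis : ∀ w ∈ W, ∀ w' ∈ W, w ≠ w' → Disjoint (D w) (D w')) (M : ℕ) (hM0 : 0 < M) (hM : M < Fintype.card Ω)
    (hq : q ≤ M / Fintype.card Ω) (hq' : q ≤ 1 - M / Fintype.card Ω) :
    (((univ : Finset (Finset Ω)).filter (fun R => R.card = M ∧ ∀ w ∈ W, R ∩ D w ≠ A w)).card : ℝ) ≤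
      (Fintype.card Ω + 1) * (1 - q ^ d) ^ W.card * ((Fintype.card Ω).choose M : ℝ) := by
  classical
  set N := Fintype.card Ω with hN
  have hNr : (0 : ℝ) < N := by exact_mod_cast (lt_of_le_of_lt (Nat.zero_le M) hM)
  have hMr : (0 : ℝ) < M := by exact_mod_cast hM0
  have hMN : (M : ℝ) < N := by exact_mod_cast hM
  set p : ℝ := M / N with hp
  have hp0 : 0 < p := by positivity
  have hp1 : 0 < 1 - p := by
    rw [sub_pos, hp, div_lt_one hNr]
    exact hMN
  have h := wcount hq0 hq hq' d W D A hA hd hdis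
  set S := (univ : Finset (Finset Ω)).filter (fun R => R.card = M ∧ ∀ w ∈ W, R ∩ D w ≠ A w) with hS
  have h1 : (S.card : ℝ) * (p ^ M * (1 - p) ^ (N - M)) ≤ (1 - q ^ d) ^ W.card := by
    refine le_trans ?_ h
    have h2 : (S.card : ℝ) * (p ^ M * (1 - p) ^ (N - M)) = ∑ R ∈ S, wS p univ R := by
      rw [← nsmul_eq_mul, ← sum_const]
      refine sum_congr rfl fun R hR => ?_
      rw [wS_univ, (mem_filter.1 hR).2.1]
    rw [h2]
    refine sum_le_sum_of_subset_of_nonneg ?_ fun R _ _ => wS_nonneg hp0.le hp1.le _ _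
    intro R hR
    rw [mem_filter] at hR ⊢
    exact ⟨hR.1, hR.2.2⟩
  have h2 : 1 ≤ ((N : ℝ) + 1) * ((N.choose M : ℝ) * (p ^ M * (1 - p) ^ (N - M))) := by
    have h3 := mode N M hM
    have h4 : (N : ℝ) ^ N ≤ (N + 1) * (N.choose M * (M ^ M * ((N : ℝ) - M) ^ (N - M))) := by
      have h5 : ((N ^ N : ℕ) : ℝ) ≤ (((N + 1) * (N.choose M * (M ^ M * (N - M) ^ (N - M))) : ℕ) : ℝ) := by
        exact_mod_cast h3
      push_cast [Nat.cast_sub hM.le] at h5
      exact h5
    have h5 : p ^ M * (1 - p) ^ (N - M) = (M ^ M * ((N : ℝ) - M) ^ (N - M)) / (N : ℝ) ^ N := by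
      have e1 : 1 - p = ((N : ℝ) - M) / N := by rw [hp]; field_simp
      have e2 : (N : ℝ) ^ N = (N : ℝ) ^ M * (N : ℝ) ^ (N - M) := by
        rw [← pow_add]
        congr 1
        omega
      rw [e1, hp, div_pow, div_pow, e2, div_mul_div_comm]
    rw [h5, mul_div_assoc', mul_div_assoc', le_div_iff₀ (by positivity), one_mul]
    exact h4
  have hpos : 0 < p ^ M * (1 - p) ^ (N - M) := by positivity
  have h3 : (S.card : ℝ) * 1 ≤ S.card * (((N : ℝ) + 1) * ((N.choose M : ℝ) * (p ^ M * (1 - p) ^ (N - M)))) :=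
    mul_le_mul_of_nonneg_left h2 (Nat.cast_nonneg _)
  rw [mul_one] at h3
  refine h3.trans ?_
  calc (S.card : ℝ) * (((N : ℝ) + 1) * ((N.choose M : ℝ) * (p ^ M * (1 - p) ^ (N - M))))
      = ((N : ℝ) + 1) * (S.card * (p ^ M * (1 - p) ^ (N - M))) * N.choose M := by ring
    _ ≤ ((N : ℝ) + 1) * (1 - q ^ d) ^ W.card * N.choose M := by
        apply mul_le_mul_of_nonneg_right _ (Nat.cast_nonneg _)
        exact mul_le_mul_of_nonneg_left h1 (by positivity)

end Pool.Agent.X99.SY
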