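import Pool.Agent.X99.SY.C

/-!
Invariant relations with a prescribed number of orbits: all but a doubly exponentially small proportion of them are rich,
for all numbers between `exp (-c k) N` and `(1 - exp (-c k)) N`, where `N` is the number of the orbits of `k`-tuples.
-/

set_option autoImplicit false

namespace Pool.Agent.X99.SY

open Finset Pool.Agent.W994.AR

variable {B : Type}

/-- the number of the orbits of `k`-tuples contained in `R` -/
noncomputable def size {G : Subgroup (Equiv.Perm B)} {k : ℕ} (R : InvRel G (Fin k)) : ℕ :=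
  (invEquiv G (Fin k) R).ncard

theorem card_size (G : Subgroup (Equiv.Perm B)) (k s : ℕ) [Finite (Orb G (Fin k))] :
    Nat.card {R : InvRel G (Fin k) // size R = s} = (Nat.card (Orb G (Fin k))).choose s := by
  classical
  have := Fintype.ofFinite (Orb G (Fin k))
  have E1 : {R : InvRel G (Fin k) // size R = s} ≃ {X : Set (Orb G (Fin k)) // X.ncard = s} :=
    (invEquiv G (Fin k)).subtypeEquiv (fun R => Iff.rfl)
  have E2 : {X : Finset (Orb G (Fin k)) // X.card = s} ≃ {X : Set (Orb G (Fin k)) // X.ncard = s} :=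
    Fintype.finsetEquivSet.subtypeEquiv (fun X => by
      rw [Fintype.finsetEquivSet_apply, Set.ncard_coe_finset])
  rw [Nat.card_congr (E1.trans E2.symm), Nat.card_eq_fintype_card, Fintype.card_finset_len,
    Nat.card_eq_fintype_card]

theorem size_count_aux (G : Subgroup (Equiv.Perm B)) (M k m : ℕ) (hM : 0 < M)
    (hk : (m + 1) * M ≤ k) [hF : Finite (Orb G (Fin M))] [Finite (Orb G (Fin k))] (s : ℕ) (hs0 : 0 < s)
    (hs : s < Nat.card (Orb G (Fin k))) (q : ℝ) (hq0 : 0 ≤ q) (hq : q ≤ s / Nat.card (Orb G (Fin k)))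
    (hq' : q ≤ 1 - s / Nat.card (Orb G (Fin k))) :
    (Nat.card {R : InvRel G (Fin k) // size R = s ∧ ¬ Rich G (Fin M) R.1} : ℝ) ≤
      Nat.card (Orb G (Fin M)) * ((Nat.card (Orb G (Fin k)) + 1) *
        (1 - q ^ Nat.card (Orb G (Fin M))) ^ (2 ^ m) * Nat.card {R : InvRel G (Fin k) // size R = s}) := by
  classical
  have := Fintype.ofFinite (Orb G (Fin M))
  have := Fintype.ofFinite (Orb G (Fin k))
  have hMk : M ≤ k := le_trans (by nlinarith) hk
  -- the map on orbits
  let φ : Finset ℕ → Orb G (Fin M) → Orb G (Fin k) := fun A =>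
    Quotient.map' (s₁ := orb G (Fin M)) (s₂ := orb G (Fin k)) (fun u => u ∘ word M k hM A)
      (fun u v h => Same.comp h _)
  have hφ : ∀ A u, φ A (Quotient.mk (orb G (Fin M)) u) = Quotient.mk (orb G (Fin k)) (u ∘ word M k hM A) :=
    fun A u => rfl
  let ncO : Finset (Orb G (Fin M)) := Finset.univ.filter (fun o => ∃ u, NC u ∧ Quotient.mk (orb G (Fin M)) u = o)
  have hφinj : ∀ A o o', φ A o = φ A o' → o = o' := by
    intro A o o' h
    obtain ⟨u, rfl⟩ := Quotient.exists_rep o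
    obtain ⟨v, rfl⟩ := Quotient.exists_rep o'
    apply Quotient.sound
    exact same_of_word M k hM hMk A u v (Quotient.exact h)
  let D : Finset ℕ → Finset (Orb G (Fin k)) := fun A => ncO.image (φ A)
  let T : Orb G (Fin M) → Finset ℕ → Finset (Orb G (Fin k)) := fun o A => (ncO.erase o).image (φ A)
  let W : Finset (Finset ℕ) := (Finset.Icc 1 m).powerset
  have hWcard : W.card = 2 ^ m := by
    simp [W]
  have hNk : Nat.card (Orb G (Fin k)) = Fintype.card (Orb G (Fin k)) := Nat.card_eq_fintype_card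
  have hcount : ∀ o, (((Finset.univ : Finset (Finset (Orb G (Fin k)))).filter
      (fun R => R.card = s ∧ ∀ w ∈ W, R ∩ D w ≠ T o w)).card : ℝ) ≤
      (Nat.card (Orb G (Fin k)) + 1) * (1 - q ^ Nat.card (Orb G (Fin M))) ^ (2 ^ m) *
        ((Nat.card (Orb G (Fin k))).choose s : ℝ) := by
    intro o
    rw [← hWcard, hNk]
    rw [hNk] at hs hq hq'
    apply count_size q hq0 _ W D (T o)
    · intro w _
      exact Finset.image_subset_image (Finset.erase_subset _ _)
    · intro w _
      rw [Nat.card_eq_fintype_card]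
      exact (Finset.card_image_le).trans (Finset.card_le_univ _)
    · intro w hw w' hw' hne
      rw [Finset.disjoint_left]
      intro x hx hx'
      obtain ⟨o1, ho1, h1⟩ := Finset.mem_image.1 hx
      obtain ⟨o2, ho2, h2⟩ := Finset.mem_image.1 hx'
      obtain ⟨u, hu, rfl⟩ := (Finset.mem_filter.1 ho1).2
      obtain ⟨v, hv, rfl⟩ := (Finset.mem_filter.1 ho2).2
      rw [← h2] at h1
      exact word_differ M k m hM hk w w' (Finset.mem_powerset.1 hw) (Finset.mem_powerset.1 hw') hne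
        u v hu hv (Quotient.exact h1)
    · exact hs0
    · exact hs
    · exact hq
    · exact hq'
  -- transfer
  let F : {R : InvRel G (Fin k) // size R = s ∧ ¬ Rich G (Fin M) R.1} → Finset (Orb G (Fin k)) := fun R =>
    (invEquiv G (Fin k) R.1).toFinset
  have hFinj : Function.Injective F := by
    intro R R' h
    apply Subtype.ext
    apply (invEquiv G (Fin k)).injective
    exact Set.toFinset_inj.1 h
  have hmem : ∀ (R : InvRel G (Fin k)) (v : Fin k → B),
      (Quotient.mk (orb G (Fin k)) v ∈ (invEquiv G (Fin k) R).toFinset) ↔ v ∈ R.1 := by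
    intro R v
    rw [Set.mem_toFinset]
    constructor
    · rintro ⟨u, hu, h⟩
      exact Same.mem (Quotient.exact h) R.2 hu
    · intro hv
      exact ⟨v, hv, rfl⟩
  have himg : ∀ R, F R ∈ (Finset.univ : Finset (Orb G (Fin M))).biUnion (fun o =>
      (Finset.univ : Finset (Finset (Orb G (Fin k)))).filter (fun R => R.card = s ∧ ∀ w ∈ W, R ∩ D w ≠ T o w)) := by
    intro R
    have hR := R.2.2
    unfold Rich at hR
    push Not at hR
    obtain ⟨v, hv, hbad⟩ := hR
    rw [Finset.mem_biUnion]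
    refine ⟨Quotient.mk (orb G (Fin M)) v, Finset.mem_univ _, ?_⟩
    rw [Finset.mem_filter]
    refine ⟨Finset.mem_univ _, ?_, ?_⟩
    · have h1 := R.2.1
      unfold size at h1
      rw [Set.ncard_eq_toFinset_card'] at h1
      exact h1
    intro A _ hEq
    have hvnc : Quotient.mk (orb G (Fin M)) v ∈ ncO :=
      Finset.mem_filter.2 ⟨Finset.mem_univ _, v, hv, rfl⟩
    have h1 : v ∘ word M k hM A ∉ R.1.1 := by
      intro hin
      have h2 : φ A (Quotient.mk (orb G (Fin M)) v) ∈ F R ∩ D A := by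
        rw [Finset.mem_inter]
        refine ⟨?_, Finset.mem_image_of_mem _ hvnc⟩
        rw [hφ]
        exact (hmem R.1 _).2 hin
      rw [hEq] at h2
      obtain ⟨o', ho', h3⟩ := Finset.mem_image.1 h2
      have := hφinj A _ _ h3
      rw [this] at ho'
      exact Finset.notMem_erase _ _ ho'
    obtain ⟨u, hu, hus, hun⟩ := hbad (word M k hM A) h1
    apply hun
    have h2 : φ A (Quotient.mk (orb G (Fin M)) u) ∈ T (Quotient.mk (orb G (Fin M)) v) A := by
      apply Finset.mem_image_of_mem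
      rw [Finset.mem_erase]
      refine ⟨fun h => hus (Quotient.exact h), Finset.mem_filter.2 ⟨Finset.mem_univ _, u, hu, rfl⟩⟩
    rw [← hEq, Finset.mem_inter, hφ] at h2
    exact (hmem R.1 _).1 h2.1
  have hle : Nat.card {R : InvRel G (Fin k) // size R = s ∧ ¬ Rich G (Fin M) R.1} ≤
      ((Finset.univ : Finset (Orb G (Fin M))).biUnion (fun o =>
      (Finset.univ : Finset (Finset (Orb G (Fin k)))).filter
        (fun R => R.card = s ∧ ∀ w ∈ W, R ∩ D w ≠ T o w))).card := by
    have : Finite (InvRel G (Fin k)) := Finite.of_equiv _ (invEquiv G (Fin k)).symm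
    have := Fintype.ofFinite {R : InvRel G (Fin k) // size R = s ∧ ¬ Rich G (Fin M) R.1}
    rw [Nat.card_eq_fintype_card, ← Finset.card_univ]
    exact Finset.card_le_card_of_injOn F (fun R _ => himg R) (fun _ _ _ _ h => hFinj h)
  rw [card_size]
  calc (Nat.card {R : InvRel G (Fin k) // size R = s ∧ ¬ Rich G (Fin M) R.1} : ℝ)
      ≤ (((Finset.univ : Finset (Orb G (Fin M))).biUnion (fun o =>
      (Finset.univ : Finset (Finset (Orb G (Fin k)))).filter
        (fun R => R.card = s ∧ ∀ w ∈ W, R ∩ D w ≠ T o w))).card : ℝ) := by exact_mod_cast hle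
    _ ≤ ∑ o : Orb G (Fin M), (((Finset.univ : Finset (Finset (Orb G (Fin k)))).filter
        (fun R => R.card = s ∧ ∀ w ∈ W, R ∩ D w ≠ T o w)).card : ℝ) := by
        exact_mod_cast Finset.card_biUnion_le
    _ ≤ ∑ o : Orb G (Fin M), (Nat.card (Orb G (Fin k)) + 1) * (1 - q ^ Nat.card (Orb G (Fin M))) ^ (2 ^ m) *
        ((Nat.card (Orb G (Fin k))).choose s : ℝ) := Finset.sum_le_sum (fun o _ => hcount o)
    _ = _ := by
        rw [Finset.sum_const, Finset.card_univ, nsmul_eq_mul, Nat.card_eq_fintype_card (α := Orb G (Fin M))]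

/-- the number of orbits is at most exponential in a power of `k` -/
theorem orb_card_le {σ : Type} [Finite σ] {ar : σ → ℕ} {𝔹 : Str σ ar B} (hB : Homogeneous 𝔹) :
    ∃ K r : ℕ, ∀ k : ℕ, 1 ≤ k → (Nat.card (Orb (autGroup 𝔹) (Fin k)) : ℝ) + 1 ≤ Real.exp (K * (k : ℝ) ^ r) := by
  classical
  have := Fintype.ofFinite σ
  set r := max 2 (Finset.univ.sup ar) with hr
  refine ⟨2 + Fintype.card σ, r, fun k hk => ?_⟩
  let f : (Fin k → B) → (Fin k → Fin k → Prop) × (∀ i, (Fin (ar i) → Fin k) → Prop) := fun v =>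
    (fun i j => v i = v j, fun i s => v ∘ s ∈ 𝔹 i)
  have hinj : Function.Injective (fun o : Orb (autGroup 𝔹) (Fin k) => f o.out) := by
    intro o o' h
    simp only [f, Prod.mk.injEq] at h
    have h1 : Same (autGroup 𝔹) o.out o'.out := hom_same hB _ _
      (fun i j => by have := congrFun (congrFun h.1 i) j; exact iff_of_eq this)
      (fun i s => by have := congrFun (congrFun h.2 i) s; exact iff_of_eq this)
    have h2 : (Quotient.mk (orb (autGroup 𝔹) (Fin k)) o.out) = Quotient.mk (orb (autGroup 𝔹) (Fin k)) o'.out :=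
      Quotient.sound h1
    rwa [Quotient.out_eq, Quotient.out_eq] at h2
  have h1 := Nat.card_le_card_of_injective _ hinj
  have h2 : Nat.card ((Fin k → Fin k → Prop) × (∀ i, (Fin (ar i) → Fin k) → Prop)) =
      2 ^ (k * k) * ∏ i, 2 ^ (k ^ ar i) := by
    have hP : Nat.card Prop = 2 := by
      rw [Nat.card_eq_fintype_card]
      rfl
    rw [Nat.card_prod, Nat.card_fun, Nat.card_fun, Nat.card_pi, hP, Nat.card_fin, ← pow_mul]
    congr 1
    refine Finset.prod_congr rfl fun i _ => ?_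
    rw [Nat.card_fun, Nat.card_fun, hP, Nat.card_fin, Nat.card_fin]
  have hkr : ∀ a, a ≤ r → k ^ a ≤ k ^ r := fun a ha => Nat.pow_le_pow_right hk ha
  have h3 : 2 ^ (k * k) * ∏ i, 2 ^ (k ^ ar i) ≤ 2 ^ ((1 + Fintype.card σ) * k ^ r) := by
    rw [Finset.prod_pow_eq_pow_sum, ← pow_add]
    apply Nat.pow_le_pow_right (by norm_num)
    have h4 : k * k ≤ k ^ r := by
      have := hkr 2 (le_max_left _ _)
      rwa [pow_two] at this
    have h5 : ∑ i, k ^ ar i ≤ Fintype.card σ * k ^ r := by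
      refine (Finset.sum_le_card_nsmul _ _ _ fun i _ => hkr (ar i)
        ((Finset.le_sup (f := ar) (Finset.mem_univ i)).trans (le_max_right _ _))).trans ?_
      rw [Finset.card_univ, smul_eq_mul]
    calc k * k + ∑ i, k ^ ar i ≤ k ^ r + Fintype.card σ * k ^ r := Nat.add_le_add h4 h5
      _ = _ := by ring
  have h4 : Nat.card (Orb (autGroup 𝔹) (Fin k)) + 1 ≤ 2 ^ ((2 + Fintype.card σ) * k ^ r) := by
    have h5 : 1 ≤ k ^ r := Nat.one_le_pow _ _ hk
    have h6 : 1 ≤ 2 ^ ((1 + Fintype.card σ) * k ^ r) := Nat.one_le_two_pow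
    have h7 : Nat.card (Orb (autGroup 𝔹) (Fin k)) ≤ 2 ^ ((1 + Fintype.card σ) * k ^ r) := (h1.trans h2.le).trans h3
    calc Nat.card (Orb (autGroup 𝔹) (Fin k)) + 1 ≤
        2 ^ ((1 + Fintype.card σ) * k ^ r) * 2 := by omega
      _ = 2 ^ ((1 + Fintype.card σ) * k ^ r + 1) := (pow_succ _ _).symm
      _ ≤ 2 ^ ((2 + Fintype.card σ) * k ^ r) := by
          apply Nat.pow_le_pow_right (by norm_num)
          calc (1 + Fintype.card σ) * k ^ r + 1 ≤ (1 + Fintype.card σ) * k ^ r + k ^ r := by omega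
            _ = _ := by ring
  have h5 : ((Nat.card (Orb (autGroup 𝔹) (Fin k)) + 1 : ℕ) : ℝ) ≤ ((2 ^ ((2 + Fintype.card σ) * k ^ r) : ℕ) : ℝ) := by
    exact_mod_cast h4
  push_cast at h5
  refine h5.trans ?_
  have h6 : (2 : ℝ) ≤ Real.exp 1 := by
    have := Real.add_one_le_exp (1 : ℝ)
    linarith
  calc (2 : ℝ) ^ ((2 + Fintype.card σ) * k ^ r) ≤ Real.exp 1 ^ ((2 + Fintype.card σ) * k ^ r) :=
        pow_le_pow_left₀ (by norm_num) h6 _
    _ = _ := by
        rw [← Real.exp_nat_mul]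
        congr 1
        push_cast
        ring

theorem poly_exp (K r : ℕ) {a : ℝ} (ha : 0 < a) : ∃ C : ℝ, 0 ≤ C ∧ ∀ k : ℕ,
    (K : ℝ) * (k : ℝ) ^ r ≤ 1 / 8 * Real.exp (a * k) + C := by
  have h1 : (fun x : ℝ => x ^ r) =o[Filter.atTop] fun x => Real.exp (a * x) := isLittleO_pow_exp_pos_mul_atTop r ha
  have h2 := h1.bound (show (0 : ℝ) < 1 / (8 * (K + 1)) by positivity)
  obtain ⟨x₀, hx₀⟩ := Filter.eventually_atTop.1 h2
  obtain ⟨k₀, hk₀⟩ := exists_nat_ge x₀
  refine ⟨K * (k₀ : ℝ) ^ r, by positivity, fun k => ?_⟩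
  rcases le_total k k₀ with h | h
  · have h3 : (k : ℝ) ^ r ≤ (k₀ : ℝ) ^ r := pow_le_pow_left₀ (Nat.cast_nonneg _) (by exact_mod_cast h) _
    have h4 := mul_le_mul_of_nonneg_left h3 (Nat.cast_nonneg (α := ℝ) K)
    have h5 : 0 ≤ 1 / 8 * Real.exp (a * k) := by positivity
    linarith
  · have h3 := hx₀ k (hk₀.trans (by exact_mod_cast h))
    rw [Real.norm_of_nonneg (by positivity), Real.norm_of_nonneg (Real.exp_pos _).le] at h3
    have h4 := mul_le_mul_of_nonneg_left h3 (Nat.cast_nonneg (α := ℝ) K)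
    have h5 : (K : ℝ) * (1 / (8 * (K + 1)) * Real.exp (a * k)) ≤ 1 / 8 * Real.exp (a * k) := by
      have h6 : (K : ℝ) * (1 / (8 * (K + 1))) ≤ 1 / 8 := by
        rw [mul_one_div, div_le_div_iff₀ (by positivity) (by norm_num)]
        linarith
      have h7 := mul_le_mul_of_nonneg_right h6 (Real.exp_pos (a * k)).le
      linarith
    have h6 : (0 : ℝ) ≤ K * (k₀ : ℝ) ^ r := by positivity
    linarith

theorem size_bound [Nonempty B] (G : Subgroup (Equiv.Perm B)) (M : ℕ) (hM : 0 < M) (hfin : ∀ k, Finite (Orb G (Fin k)))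
    (K r : ℕ) (hK : ∀ k : ℕ, 1 ≤ k → (Nat.card (Orb G (Fin k)) : ℝ) + 1 ≤ Real.exp (K * (k : ℝ) ^ r)) :
    ∃ C c : ℝ, 0 < C ∧ 0 < c ∧ ∀ k s : ℕ, M ≤ k → Real.exp (-(c * k)) * Nat.card (Orb G (Fin k)) ≤ s →
      (s : ℝ) ≤ (1 - Real.exp (-(c * k))) * Nat.card (Orb G (Fin k)) →
      (Nat.card {R : InvRel G (Fin k) // size R = s ∧ ¬ Rich G (Fin M) R.1} : ℝ) ≤
        C * Real.exp (-(1 / 8 * Real.exp (c * k))) * Nat.card {R : InvRel G (Fin k) // size R = s} := by
  set N := Nat.card (Orb G (Fin M)) with hN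
  have hMr : (0 : ℝ) < M := by exact_mod_cast hM
  have hl2 : 0 < Real.log 2 := Real.log_pos (by norm_num)
  set a : ℝ := Real.log 2 / (2 * M) with ha
  have ha0 : 0 < a := by positivity
  set c : ℝ := Real.log 2 / (2 * M * (N + 1)) with hc
  have hc0 : 0 < c := by positivity
  have hca : c * (N + 1) = a := by
    rw [hc, ha]
    field_simp
  have hcle : c ≤ a := by
    rw [← hca]
    have : 0 ≤ c * N := by positivity
    linarith
  obtain ⟨C₁, hC₁, hpoly⟩ := poly_exp K r ha0
  refine ⟨(N + 1) * Real.exp C₁, c, by positivity, hc0, ?_⟩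
  intro k s hk hs1 hs2
  have := hfin k
  have := hfin M
  have hk1 : 1 ≤ k := by omega
  have hNk : 0 < Nat.card (Orb G (Fin k)) := by
    have : Nonempty (Orb G (Fin k)) := ⟨Quotient.mk _ (fun _ => Classical.arbitrary B)⟩
    exact Nat.card_pos
  have hNkr : (0 : ℝ) < Nat.card (Orb G (Fin k)) := by exact_mod_cast hNk
  set q : ℝ := Real.exp (-(c * k)) with hq
  have hq0 : 0 < q := Real.exp_pos _
  have hs0 : 0 < s := by
    have : (0 : ℝ) < s := lt_of_lt_of_le (mul_pos hq0 hNkr) hs1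
    exact_mod_cast this
  have hsN : s < Nat.card (Orb G (Fin k)) := by
    have : (s : ℝ) < Nat.card (Orb G (Fin k)) := by
      refine lt_of_le_of_lt hs2 ?_
      have := mul_pos hq0 hNkr
      linarith
    exact_mod_cast this
  have hq1 : q ≤ s / Nat.card (Orb G (Fin k)) := by
    rw [le_div_iff₀ hNkr]
    exact hs1
  have hq2 : q ≤ 1 - s / Nat.card (Orb G (Fin k)) := by
    have : (s : ℝ) / Nat.card (Orb G (Fin k)) ≤ 1 - q := by
      rw [div_le_iff₀ hNkr]
      exact hs2
    linarith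
  have hqle : q ≤ 1 := by
    rw [hq]
    apply Real.exp_le_one_iff.2
    have : 0 ≤ c * k := by positivity
    linarith
  have hd1 : 1 ≤ k / M := (Nat.one_le_div_iff hM).2 hk
  set m := k / M - 1 with hm
  have hm1 : m + 1 = k / M := by omega
  have hmk : (m + 1) * M ≤ k := by rw [hm1]; exact Nat.div_mul_le_self k M
  have h := size_count_aux G M k m hM hmk s hs0 hsN q hq0.le hq1 hq2
  rw [← hN] at h
  refine h.trans ?_
  have hqN : q ^ N ≤ 1 := pow_le_one₀ hq0.le hqle
  have h1 : (1 - q ^ N) ^ (2 ^ m) ≤ Real.exp (-(q ^ N * 2 ^ m)) := by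
    have h2 : 1 - q ^ N ≤ Real.exp (-q ^ N) := by
      have := Real.add_one_le_exp (-q ^ N)
      linarith
    calc (1 - q ^ N) ^ (2 ^ m) ≤ Real.exp (-q ^ N) ^ (2 ^ m) := pow_le_pow_left₀ (by linarith) h2 _
      _ = _ := by
          rw [← Real.exp_nat_mul]
          congr 1
          push_cast
          ring
  have h3 : Real.exp (2 * a * k) / 4 ≤ 2 ^ m := by
    have e1 : Real.exp (2 * a * k) = (2 : ℝ) ^ ((k : ℝ) / M) := by
      rw [Real.rpow_def_of_pos (by norm_num)]
      congr 1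
      rw [ha]
      field_simp
    have h4 : ((k : ℝ) / M) ≤ (m : ℝ) + 2 := by
      have h5 : (k : ℝ) < ((k / M : ℕ) + 1 : ℝ) * M := by
        have := Nat.lt_mul_of_div_lt (Nat.lt_succ_self (k / M)) hM
        exact_mod_cast this
      rw [div_le_iff₀ hMr]
      have h6 : ((k / M : ℕ) : ℝ) = m + 1 := by rw [← hm1]; push_cast; ring
      rw [h6] at h5
      linarith
    have h7 : (2 : ℝ) ^ ((k : ℝ) / M) ≤ (2 : ℝ) ^ ((m : ℝ) + 2) :=
      Real.rpow_le_rpow_of_exponent_le (by norm_num) h4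
    have h8 : (2 : ℝ) ^ ((m : ℝ) + 2) = 2 ^ m * 4 := by
      rw [Real.rpow_add (by norm_num), Real.rpow_natCast]
      norm_num
    rw [h8, ← e1] at h7
    linarith
  have h4 : 1 / 4 * Real.exp (a * k) ≤ q ^ N * 2 ^ m := by
    have e2 : q ^ N = Real.exp (-(c * N * k)) := by
      rw [hq, ← Real.exp_nat_mul]
      congr 1
      ring
    have e3 : Real.exp (a * k) ≤ q ^ N * Real.exp (2 * a * k) := by
      rw [e2, ← Real.exp_add]
      apply Real.exp_le_exp.2
      have h5 : c * N ≤ a := by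
        rw [← hca]
        linarith
      have h6 := mul_le_mul_of_nonneg_right h5 (Nat.cast_nonneg (α := ℝ) k)
      linarith
    have h5 := mul_le_mul_of_nonneg_left h3 (pow_nonneg hq0.le N)
    linarith
  have h5 : (1 - q ^ N) ^ (2 ^ m) ≤ Real.exp (-(1 / 4 * Real.exp (a * k))) :=
    h1.trans (Real.exp_le_exp.2 (by linarith))
  have h6 : ((Nat.card (Orb G (Fin k)) : ℝ) + 1) * (1 - q ^ N) ^ (2 ^ m) ≤
      Real.exp C₁ * Real.exp (-(1 / 8 * Real.exp (c * k))) := by
    have h7 : (0 : ℝ) ≤ (1 - q ^ N) ^ (2 ^ m) := pow_nonneg (by linarith) _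
    calc ((Nat.card (Orb G (Fin k)) : ℝ) + 1) * (1 - q ^ N) ^ (2 ^ m)
        ≤ Real.exp (K * (k : ℝ) ^ r) * Real.exp (-(1 / 4 * Real.exp (a * k))) :=
          mul_le_mul (hK k hk1) h5 h7 (Real.exp_pos _).le
      _ ≤ Real.exp C₁ * Real.exp (-(1 / 8 * Real.exp (c * k))) := by
          rw [← Real.exp_add, ← Real.exp_add]
          apply Real.exp_le_exp.2
          have h8 := hpoly k
          have h9 : Real.exp (c * k) ≤ Real.exp (a * k) :=
            Real.exp_le_exp.2 (mul_le_mul_of_nonneg_right hcle (Nat.cast_nonneg _))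
          linarith
  have hall : (0 : ℝ) ≤ Nat.card {R : InvRel G (Fin k) // size R = s} := Nat.cast_nonneg _
  have h7 : (0 : ℝ) ≤ Real.exp C₁ * Real.exp (-(1 / 8 * Real.exp (c * k))) := by positivity
  calc (N : ℝ) * ((Nat.card (Orb G (Fin k)) + 1) * (1 - q ^ N) ^ (2 ^ m) *
        Nat.card {R : InvRel G (Fin k) // size R = s})
      ≤ N * (Real.exp C₁ * Real.exp (-(1 / 8 * Real.exp (c * k))) *
        Nat.card {R : InvRel G (Fin k) // size R = s}) := by
        apply mul_le_mul_of_nonneg_left _ (Nat.cast_nonneg _)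
        exact mul_le_mul_of_nonneg_right h6 hall
    _ ≤ (N + 1) * (Real.exp C₁ * Real.exp (-(1 / 8 * Real.exp (c * k))) *
        Nat.card {R : InvRel G (Fin k) // size R = s}) := by
        apply mul_le_mul_of_nonneg_right (by linarith) (mul_nonneg h7 hall)
    _ = _ := by ring

end Pool.Agent.X99.SY
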