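import Pool.Agent.X99.SY.D

/-!
The number of the invariant relations with a prescribed number of orbits which contain none of the constant tuples of the
constraint language.
-/

set_option autoImplicit false

namespace Pool.Agent.X99.SY

open Finset Pool.Agent.W994.AR

variable {B : Type}

/-- the orbits of the constant tuples of the constraint language -/
def constSet (G : Subgroup (Equiv.Perm B)) {ι : Type} {arΓ : ι → ℕ} (Γ : Str ι arΓ B) (k : ℕ) : Set (Orb G (Fin k)) :=
  {o | ∃ b, o = Quotient.mk (orb G (Fin k)) (fun _ => b) ∧ ∀ l, (Γ l).Nonempty → (fun _ => b) ∈ Γ l}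

theorem constSet_ncard {G : Subgroup (Equiv.Perm B)} {ι : Type} {arΓ : ι → ℕ} (Γ : Str ι arΓ B) (k : ℕ) (hk : 1 ≤ k) :
    (constSet G Γ k).ncard = constOrbits G Γ := by
  have hsame : ∀ b b', Quotient.mk (orb G (Fin k)) (fun _ => b) =
      Quotient.mk (orb G (Fin k)) (fun _ => b') ↔ ∃ g ∈ G, g b = b' := by
    intro b b'
    constructor
    · intro h
      obtain ⟨g, hg, h⟩ : Same G (fun _ : Fin k => b) (fun _ => b') := Quotient.exact h
      exact ⟨g, hg, h ⟨0, hk⟩⟩
    · rintro ⟨g, hg, h⟩
      exact Quotient.sound (⟨g, hg, fun _ => h⟩ : Same G (fun _ : Fin k => b) (fun _ => b'))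
  unfold constOrbits
  let ψ : Orb G (Fin k) → Set B := fun o => {x | o = Quotient.mk (orb G (Fin k)) (fun _ => x)}
  have himg : {O : Set B | ∃ b, O = {x | ∃ g ∈ G, g b = x} ∧
      ∀ l, (Γ l).Nonempty → (fun _ => b) ∈ Γ l} = ψ '' (constSet G Γ k) := by
    ext O
    constructor
    · rintro ⟨b, rfl, hb⟩
      refine ⟨_, ⟨b, rfl, hb⟩, ?_⟩
      ext x
      exact hsame b x
    · rintro ⟨_, ⟨b, rfl, hb⟩, rfl⟩
      refine ⟨b, ?_, hb⟩
      ext x
      exact hsame b x
  rw [himg, Set.InjOn.ncard_image]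
  rintro _ ⟨b, rfl, _⟩ _ ⟨b', rfl, _⟩ h
  have h1 : b ∈ ψ (Quotient.mk (orb G (Fin k)) (fun _ => b)) := rfl
  rw [h] at h1
  exact h1.symm

theorem card_sets (α : Type) [Finite α] (s : ℕ) : Nat.card {X : Set α // X.ncard = s} = (Nat.card α).choose s := by
  classical
  have := Fintype.ofFinite α
  have E2 : {X : Finset α // X.card = s} ≃ {X : Set α // X.ncard = s} :=
    Fintype.finsetEquivSet.subtypeEquiv (fun X => by
      rw [Fintype.finsetEquivSet_apply, Set.ncard_coe_finset])
  rw [← Nat.card_congr E2, Nat.card_eq_fintype_card, Fintype.card_finset_len, Nat.card_eq_fintype_card]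

theorem size_const_count {G : Subgroup (Equiv.Perm B)} {ι : Type} {arΓ : ι → ℕ} (Γ : Str ι arΓ B) (k : ℕ) (hk : 1 ≤ k)
    (s : ℕ) [Finite (Orb G (Fin k))] :
    Nat.card {R : InvRel G (Fin k) // size R = s ∧ ∀ b, (∀ l, (Γ l).Nonempty → (fun _ => b) ∈ Γ l) →
      (fun _ => b) ∉ R.1} = (Nat.card (Orb G (Fin k)) - constOrbits G Γ).choose s := by
  classical
  have := Fintype.ofFinite (Orb G (Fin k))
  let K : Set (Orb G (Fin k)) := constSet G Γ k
  have E1 : {R : InvRel G (Fin k) // size R = s ∧ ∀ b, (∀ l, (Γ l).Nonempty → (fun _ => b) ∈ Γ l) →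
      (fun _ => b) ∉ R.1} ≃ {X : Set (Orb G (Fin k)) // X.ncard = s ∧ ∀ o ∈ K, o ∉ X} :=
    (invEquiv G (Fin k)).subtypeEquiv (by
      intro R
      have hmem : ∀ v : Fin k → B, Quotient.mk (orb G (Fin k)) v ∈ invEquiv G (Fin k) R ↔ v ∈ R.1 := by
        intro v
        constructor
        · rintro ⟨u, hu, h⟩
          exact Same.mem (Quotient.exact h) R.2 hu
        · intro hv
          exact ⟨v, hv, rfl⟩
      refine and_congr Iff.rfl ⟨?_, ?_⟩
      · rintro h o ⟨b, rfl, hb⟩ ho
        exact h b hb ((hmem _).1 ho)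
      · intro h b hb hR
        exact h _ ⟨b, rfl, hb⟩ ((hmem _).2 hR))
  have E2 : {X : Set (Orb G (Fin k)) // X.ncard = s ∧ ∀ o ∈ K, o ∉ X} ≃
      {Y : Set {o : Orb G (Fin k) // o ∉ K} // Y.ncard = s} :=
    { toFun := fun X => ⟨{o | o.1 ∈ X.1}, by
        have h : (Subtype.val '' {o : {o : Orb G (Fin k) // o ∉ K} | o.1 ∈ X.1}) = X.1 := by
          ext o
          constructor
          · rintro ⟨o, ho, rfl⟩
            exact ho
          · intro ho
            exact ⟨⟨o, fun hK => X.2.2 o hK ho⟩, ho, rfl⟩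
        rw [← Set.ncard_image_of_injective _ Subtype.val_injective, h]
        exact X.2.1⟩
      invFun := fun Y => ⟨Subtype.val '' Y.1, by
        rw [Set.ncard_image_of_injective _ Subtype.val_injective]
        exact Y.2, by
        rintro o ho ⟨o', _, rfl⟩
        exact o'.2 ho⟩
      left_inv := by
        rintro ⟨X, hX⟩
        apply Subtype.ext
        ext o
        constructor
        · rintro ⟨o, ho, rfl⟩
          exact ho
        · intro ho
          exact ⟨⟨o, fun hK => hX.2 o hK ho⟩, ho, rfl⟩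
      right_inv := by
        intro Y
        apply Subtype.ext
        ext o
        constructor
        · rintro ⟨o', ho', h⟩
          rw [← Subtype.ext h]
          exact ho'
        · intro h
          exact ⟨o, h, rfl⟩ }
  rw [Nat.card_congr (E1.trans E2), card_sets]
  congr 1
  rw [Nat.card_eq_fintype_card, Nat.card_eq_fintype_card]
  have h1 : Fintype.card {o : Orb G (Fin k) // o ∉ K} = Fintype.card (Orb G (Fin k)) - Fintype.card K := by
    exact Fintype.card_subtype_compl (fun o => o ∈ K)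
  have h2 : Fintype.card K = K.ncard := by
    rw [← Nat.card_eq_fintype_card]
    rfl
  rw [h1, h2, constSet_ncard Γ k hk]

end Pool.Agent.X99.SY
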