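import Pool.Agent.X99.SY.E

/-!
Random relations which consist of injective tuples, for groups which preserve a linear order: all but a tiny proportion of
them separate the orbits of injective tuples by permutations of the coordinates.
-/

set_option autoImplicit false

namespace Pool.Agent.X99.SY

open Finset Pool.Agent.W994.AR

variable {B : Type}

/-- the orbits of injective tuples -/
abbrev InjOrb (G : Subgroup (Equiv.Perm B)) (k : ℕ) : Type :=
  {o : Orb G (Fin k) // ∃ v : Fin k → B, Function.Injective v ∧ Quotient.mk (orb G (Fin k)) v = o}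

/-- the invariant relations which consist of injective tuples -/
abbrev InjRel (G : Subgroup (Equiv.Perm B)) (k : ℕ) : Type :=
  {R : InvRel G (Fin k) // ∀ v ∈ R.1, Function.Injective v}

/-- the orbit of an injective tuple -/
def cls (G : Subgroup (Equiv.Perm B)) {k : ℕ} (v : Fin k → B) (hv : Function.Injective v) : InjOrb G k :=
  ⟨Quotient.mk (orb G (Fin k)) v, v, hv, rfl⟩

theorem Same.injective {G : Subgroup (Equiv.Perm B)} {V : Type} {u v : V → B} (h : Same G u v)
    (hu : Function.Injective u) : Function.Injective v := by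
  obtain ⟨g, _, h⟩ := h
  intro i j hij
  rw [← h i, ← h j] at hij
  exact hu (g.injective hij)

theorem cls_eq {G : Subgroup (Equiv.Perm B)} {k : ℕ} {u v : Fin k → B} (hu : Function.Injective u)
    (hv : Function.Injective v) : cls G u hu = cls G v hv ↔ Same G u v := by
  unfold cls
  rw [Subtype.mk.injEq]
  exact ⟨fun h => Quotient.exact h, fun h => Quotient.sound h⟩

/-- a representative -/
noncomputable def rep {G : Subgroup (Equiv.Perm B)} {k : ℕ} (o : InjOrb G k) : Fin k → B := o.2.choose

theorem rep_inj {G : Subgroup (Equiv.Perm B)} {k : ℕ} (o : InjOrb G k) : Function.Injective (rep o) :=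
  o.2.choose_spec.1

theorem cls_rep {G : Subgroup (Equiv.Perm B)} {k : ℕ} (o : InjOrb G k) : cls G (rep o) (rep_inj o) = o :=
  Subtype.ext o.2.choose_spec.2

/-- permutations of the coordinates act on the orbits -/
noncomputable def act {G : Subgroup (Equiv.Perm B)} {k : ℕ} (σ : Equiv.Perm (Fin k)) (o : InjOrb G k) : InjOrb G k :=
  cls G (rep o ∘ σ) ((rep_inj o).comp σ.injective)

theorem act_cls {G : Subgroup (Equiv.Perm B)} {k : ℕ} (σ : Equiv.Perm (Fin k)) {v : Fin k → B}
    (hv : Function.Injective v) : act σ (cls G v hv) = cls G (v ∘ σ) (hv.comp σ.injective) := by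
  unfold act
  rw [cls_eq]
  have h : Same G (rep (cls G v hv)) v := (cls_eq (rep_inj _) hv).1 (cls_rep _)
  exact h.comp σ

theorem act_inj {G : Subgroup (Equiv.Perm B)} {k : ℕ} {σ : Equiv.Perm (Fin k)} {o o' : InjOrb G k}
    (h : act σ o = act σ o') : o = o' := by
  unfold act at h
  rw [cls_eq] at h
  have h1 := h.comp σ.symm
  have e : ∀ u : Fin k → B, (u ∘ σ) ∘ σ.symm = u := fun u => by funext x; simp
  rw [e, e] at h1
  rw [← cls_rep o, ← cls_rep o', cls_eq]
  exact h1

/-- a group which preserves a linear order acts freely modulo permutations of the coordinates -/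
theorem free [LinearOrder B] {G : Subgroup (Equiv.Perm B)} (hG : ∀ g ∈ G, StrictMono g) {k : ℕ} {v : Fin k → B}
    (hv : Function.Injective v) {σ τ : Equiv.Perm (Fin k)} (h : Same G (v ∘ σ) (v ∘ τ)) : σ = τ := by
  classical
  obtain ⟨g, hg, h⟩ := h
  set ρ : Equiv.Perm (Fin k) := σ.symm.trans τ with hρ
  have h1 : ∀ j, g (v j) = v (ρ j) := by
    intro j
    have := h (σ.symm j)
    simp only [Function.comp, Equiv.apply_symm_apply] at this
    rw [this]
    rfl
  let r : Fin k → ℕ := fun j => (univ.filter (fun l => v l < v j)).card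
  have hr : ∀ j, r (ρ j) = r j := by
    intro j
    symm
    refine Finset.card_bij (fun l _ => ρ l) ?_ ?_ ?_
    · intro l hl
      rw [mem_filter] at hl ⊢
      refine ⟨mem_univ _, ?_⟩
      rw [← h1, ← h1]
      exact hG g hg hl.2
    · intro l _ l' _ hll
      exact ρ.injective hll
    · intro l hl
      rw [mem_filter] at hl
      refine ⟨ρ.symm l, mem_filter.2 ⟨mem_univ _, ?_⟩, by simp⟩
      have h2 : g (v (ρ.symm l)) < g (v j) := by
        rw [h1, h1, Equiv.apply_symm_apply]
        exact hl.2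
      exact (hG g hg).lt_iff_lt.1 h2
  have hmono : ∀ i j, v i < v j → r i < r j := by
    intro i j hij
    apply Finset.card_lt_card
    rw [Finset.ssubset_iff_of_subset]
    · exact ⟨i, mem_filter.2 ⟨mem_univ _, hij⟩, fun hi => lt_irrefl _ (mem_filter.1 hi).2⟩
    · intro l hl
      exact mem_filter.2 ⟨mem_univ _, (mem_filter.1 hl).2.trans hij⟩
  have hρ1 : ∀ j, ρ j = j := by
    intro j
    have h2 := hr j
    rcases lt_trichotomy (v (ρ j)) (v j) with h3 | h3 | h3
    · exact absurd (hmono _ _ h3) (by omega)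
    · exact hv h3
    · exact absurd (hmono _ _ h3) (by omega)
  ext1 i
  have h2 := hρ1 (σ i)
  rw [hρ] at h2
  simp only [Equiv.trans_apply, Equiv.symm_apply_apply] at h2
  exact h2.symm

/-- a large family of pairwise disjoint sets -/
theorem exists_disjoint {P Ω : Type} [Fintype P] [DecidableEq P] [DecidableEq Ω] (D : P → Finset Ω) (b : ℕ)
    (hb : ∀ p, ((univ : Finset P).filter (fun q => ¬ Disjoint (D p) (D q))).card ≤ b) (hne : ∀ p, (D p).Nonempty) :
    ∃ W : Finset P, (∀ w ∈ W, ∀ w' ∈ W, w ≠ w' → Disjoint (D w) (D w')) ∧ Fintype.card P ≤ W.card * b := by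
  classical
  let F : Finset (Finset P) := (univ : Finset (Finset P)).filter
    (fun W => ∀ w ∈ W, ∀ w' ∈ W, w ≠ w' → Disjoint (D w) (D w'))
  obtain ⟨W, hW, hmax⟩ := Finset.exists_max_image F Finset.card ⟨∅, mem_filter.2 ⟨mem_univ _, by simp⟩⟩
  have hWg := (mem_filter.1 hW).2
  refine ⟨W, hWg, ?_⟩
  have hcov : (univ : Finset P) ⊆ W.biUnion (fun p => (univ : Finset P).filter (fun q => ¬ Disjoint (D p) (D q))) := by
    intro q _
    rw [mem_biUnion]
    by_contra hcon
    push Not at hcon
    have hq : q ∉ W := by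
      intro hqW
      have := hcon q hqW
      rw [mem_filter] at this
      apply this
      refine ⟨mem_univ _, fun hd => ?_⟩
      rw [disjoint_self] at hd
      exact (hne q).ne_empty hd
    have hdq : ∀ w ∈ W, Disjoint (D w) (D q) := by
      intro w hw
      have := hcon w hw
      rw [mem_filter] at this
      by_contra hd
      exact this ⟨mem_univ _, hd⟩
    have hins : insert q W ∈ F := by
      refine mem_filter.2 ⟨mem_univ _, ?_⟩
      intro w hw w' hw' hne'
      rw [mem_insert] at hw hw'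
      rcases hw with rfl | hw
      · rcases hw' with rfl | hw'
        · exact absurd rfl hne'
        · exact (hdq w' hw').symm
      · rcases hw' with rfl | hw'
        · exact hdq w hw
        · exact hWg w hw w' hw' hne'
    have := hmax _ hins
    rw [card_insert_of_notMem hq] at this
    omega
  calc Fintype.card P = (univ : Finset P).card := rfl
    _ ≤ _ := card_le_card hcov
    _ ≤ W.card * b := Finset.card_biUnion_le_card_mul _ _ _ (fun w _ => hb w)

/-- `R` separates `a` orbits of injective tuples from every other one -/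
def Sep (G : Subgroup (Equiv.Perm B)) (a : ℕ) {k : ℕ} (R : Set (Fin k → B)) : Prop :=
  ∀ (u : Fin a → Fin k → B) (z : Fin k → B), (∀ t, Function.Injective (u t)) → Function.Injective z →
    (∀ t, ¬ Same G (u t) z) → ∃ σ : Equiv.Perm (Fin k), (∀ t, u t ∘ σ ∈ R) ∧ z ∘ σ ∉ R

/-- injective relations are sets of orbits of injective tuples -/
noncomputable def injEquiv (G : Subgroup (Equiv.Perm B)) (k : ℕ) : InjRel G k ≃ Set (InjOrb G k) where
  toFun R := {o | ∃ v ∈ R.1.1, Quotient.mk (orb G (Fin k)) v = o.1}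
  invFun X := ⟨⟨{v | ∃ hv : Function.Injective v, cls G v hv ∈ X}, by
    intro g hg v hv
    obtain ⟨hv, hX⟩ := hv
    have h1 : Same G v (fun i => g (v i)) := ⟨g, hg, fun _ => rfl⟩
    refine ⟨Same.injective h1 hv, ?_⟩
    rw [← (cls_eq hv (Same.injective h1 hv)).2 h1]
    exact hX⟩, fun v hv => hv.1⟩
  left_inv R := by
    apply Subtype.ext
    apply Subtype.ext
    ext v
    constructor
    · rintro ⟨hv, u, hu, h⟩
      exact Same.mem (Quotient.exact h) R.1.2 hu
    · intro hv
      exact ⟨R.2 v hv, v, hv, rfl⟩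
  right_inv X := by
    ext o
    constructor
    · rintro ⟨v, ⟨hv, hX⟩, h⟩
      have : cls G v hv = o := Subtype.ext h
      rwa [this] at hX
    · intro ho
      refine ⟨rep o, ⟨rep_inj o, ?_⟩, o.2.choose_spec.2⟩
      rw [cls_rep]
      exact ho

theorem mem_injEquiv {G : Subgroup (Equiv.Perm B)} {k : ℕ} (R : InjRel G k) {v : Fin k → B}
    (hv : Function.Injective v) : cls G v hv ∈ injEquiv G k R ↔ v ∈ R.1.1 := by
  constructor
  · rintro ⟨u, hu, h⟩
    exact Same.mem (Quotient.exact h) R.1.2 hu
  · intro h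
    exact ⟨v, h, rfl⟩

theorem sep_count [LinearOrder B] {G : Subgroup (Equiv.Perm B)} (hG : ∀ g ∈ G, StrictMono g) (a k : ℕ)
    [Finite (Orb G (Fin k))] :
    (Nat.card {R : InjRel G k // ¬ Sep G a R.1.1} : ℝ) ≤ (Nat.card (Orb G (Fin k)) : ℝ) ^ (a + 1) *
      Real.exp (-((2⁻¹ : ℝ) ^ (a + 1) * (k.factorial / (a + 1) ^ 2))) * Nat.card (InjRel G k) := by
  classical
  have := Fintype.ofFinite (Orb G (Fin k))
  have hfinO : Finite (InjOrb G k) := inferInstance
  have := Fintype.ofFinite (InjOrb G k)
  -- the sets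
  let D : (Option (Fin a) → InjOrb G k) → Equiv.Perm (Fin k) → Finset (InjOrb G k) := fun w σ =>
    univ.image (fun i => act σ (w i))
  let A : (Option (Fin a) → InjOrb G k) → Equiv.Perm (Fin k) → Finset (InjOrb G k) := fun w σ =>
    univ.image (fun t : Fin a => act σ (w (some t)))
  have hcardO : Fintype.card (Option (Fin a)) = a + 1 := by
    rw [Fintype.card_option, Fintype.card_fin]
  -- the disjoint families
  have hfam : ∀ w : Option (Fin a) → InjOrb G k, ∃ W : Finset (Equiv.Perm (Fin k)),
      (∀ σ ∈ W, ∀ σ' ∈ W, σ ≠ σ' → Disjoint (D w σ) (D w σ')) ∧ k.factorial ≤ W.card * (a + 1) ^ 2 := by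
    intro w
    obtain ⟨W, h1, h2⟩ := exists_disjoint (D w) ((a + 1) ^ 2) (fun σ => by
      have hch : ∀ σ' ∈ (univ : Finset (Equiv.Perm (Fin k))).filter (fun τ => ¬ Disjoint (D w σ) (D w τ)),
          ∃ ij : Option (Fin a) × Option (Fin a), act σ (w ij.1) = act σ' (w ij.2) := by
        intro σ' hσ'
        have h := (mem_filter.1 hσ').2
        rw [Finset.not_disjoint_iff] at h
        obtain ⟨o, ho1, ho2⟩ := h
        obtain ⟨i, _, hi⟩ := mem_image.1 ho1
        obtain ⟨j, _, hj⟩ := mem_image.1 ho2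
        exact ⟨(i, j), by rw [hi, hj]⟩
      choose! F hF using hch
      have h3 : ((univ : Finset (Equiv.Perm (Fin k))).filter (fun τ => ¬ Disjoint (D w σ) (D w τ))).card ≤
          (univ : Finset (Option (Fin a) × Option (Fin a))).card := by
        refine Finset.card_le_card_of_injOn F (fun _ _ => mem_coe.2 (mem_univ _)) ?_
        intro τ hτ τ' hτ' hττ
        have e1 := hF τ hτ
        have e2 := hF τ' hτ'
        rw [hττ] at e1
        have e3 : act τ (w (F τ').2) = act τ' (w (F τ').2) := by rw [← e1, ← e2]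
        unfold act at e3
        rw [cls_eq] at e3
        exact free hG (rep_inj _) e3
      rw [card_univ, Fintype.card_prod, hcardO] at h3
      rw [pow_two]
      exact h3) (fun σ => ⟨act σ (w none), mem_image.2 ⟨none, mem_univ _, rfl⟩⟩)
    refine ⟨W, h1, ?_⟩
    rwa [Fintype.card_perm, Fintype.card_fin] at h2
  choose W hW1 hW2 using hfam
  set E : ℝ := Real.exp (-((2⁻¹ : ℝ) ^ (a + 1) * (k.factorial / (a + 1) ^ 2))) with hE
  have hx0 : (0 : ℝ) ≤ (2⁻¹ : ℝ) ^ (a + 1) := by positivity
  have hx1 : (2⁻¹ : ℝ) ^ (a + 1) ≤ 1 := pow_le_one₀ (by norm_num) (by norm_num)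
  have hcount : ∀ w : Option (Fin a) → InjOrb G k, (((univ : Finset (Finset (InjOrb G k))).filter
      (fun R => ∀ σ ∈ W w, R ∩ D w σ ≠ A w σ)).card : ℝ) ≤ E * 2 ^ Fintype.card (InjOrb G k) := by
    intro w
    have h := count (Ω := InjOrb G k) (a + 1) (W w) (D w) (A w) (fun σ _ => by
      intro o ho
      obtain ⟨t, _, rfl⟩ := mem_image.1 ho
      exact mem_image.2 ⟨some t, mem_univ _, rfl⟩) (fun σ _ => by
      refine Finset.card_image_le.trans ?_
      rw [card_univ, hcardO]) (fun σ hσ σ' hσ' hne => hW1 w σ hσ σ' hσ' hne)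
    refine le_trans (le_of_eq ?_) (h.trans ?_)
    · congr 2
      ext R
      simp only [mem_filter]
    apply mul_le_mul_of_nonneg_right _ (by positivity)
    have h2 : 1 - (2⁻¹ : ℝ) ^ (a + 1) ≤ Real.exp (-(2⁻¹ : ℝ) ^ (a + 1)) := by
      have := Real.add_one_le_exp (-(2⁻¹ : ℝ) ^ (a + 1))
      linarith
    calc (1 - (2⁻¹ : ℝ) ^ (a + 1)) ^ (W w).card ≤ Real.exp (-(2⁻¹ : ℝ) ^ (a + 1)) ^ (W w).card :=
          pow_le_pow_left₀ (by linarith) h2 _
      _ = Real.exp (-((2⁻¹ : ℝ) ^ (a + 1) * (W w).card)) := by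
          rw [← Real.exp_nat_mul]
          congr 1
          ring
      _ ≤ E := by
          apply Real.exp_le_exp.2
          have h3 : (k.factorial : ℝ) / (a + 1) ^ 2 ≤ (W w).card := by
            rw [div_le_iff₀ (by positivity)]
            exact_mod_cast hW2 w
          have := mul_le_mul_of_nonneg_left h3 hx0
          linarith
  have hInv : Nat.card (InjRel G k) = 2 ^ Fintype.card (InjOrb G k) := by
    rw [Nat.card_congr (injEquiv G k), Nat.card_eq_fintype_card, Fintype.card_set]
  have hfinR : Finite (InjRel G k) := Finite.of_equiv _ (injEquiv G k).symm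
  let F : {R : InjRel G k // ¬ Sep G a R.1.1} → Finset (InjOrb G k) := fun R => (injEquiv G k R.1).toFinset
  have hFinj : Function.Injective F := by
    intro R R' h
    apply Subtype.ext
    apply (injEquiv G k).injective
    exact Set.toFinset_inj.1 h
  have himg : ∀ R, F R ∈ (univ : Finset (Option (Fin a) → InjOrb G k)).biUnion (fun w =>
      (univ : Finset (Finset (InjOrb G k))).filter (fun R => ∀ σ ∈ W w, R ∩ D w σ ≠ A w σ)) := by
    intro R
    have hR := R.2
    unfold Sep at hR
    push Not at hR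
    obtain ⟨u, z, hu, hz, hne, hbad⟩ := hR
    let w : Option (Fin a) → InjOrb G k := fun i => i.elim (cls G z hz) (fun t => cls G (u t) (hu t))
    rw [mem_biUnion]
    refine ⟨w, mem_univ _, mem_filter.2 ⟨mem_univ _, fun σ _ hEq => ?_⟩⟩
    have h1 : ∀ t, u t ∘ σ ∈ R.1.1.1 := by
      intro t
      have h2 : act σ (w (some t)) ∈ F R ∩ D w σ := by
        rw [hEq]
        exact mem_image.2 ⟨t, mem_univ _, rfl⟩
      have h3 := (mem_inter.1 h2).1
      have h4 : act σ (w (some t)) = cls G (u t ∘ σ) ((hu t).comp σ.injective) := act_cls σ (hu t)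
      rw [h4, Set.mem_toFinset, mem_injEquiv] at h3
      exact h3
    have h2 := hbad σ h1
    have h3 : act σ (w none) ∈ F R ∩ D w σ := by
      refine mem_inter.2 ⟨?_, mem_image.2 ⟨none, mem_univ _, rfl⟩⟩
      have h4 : act σ (w none) = cls G (z ∘ σ) (hz.comp σ.injective) := act_cls σ hz
      rw [h4, Set.mem_toFinset, mem_injEquiv]
      exact h2
    rw [hEq] at h3
    obtain ⟨t, _, ht⟩ := mem_image.1 h3
    exact hne t ((cls_eq (hu t) hz).1 (act_inj ht))
  have hle : Nat.card {R : InjRel G k // ¬ Sep G a R.1.1} ≤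
      ((univ : Finset (Option (Fin a) → InjOrb G k)).biUnion (fun w =>
      (univ : Finset (Finset (InjOrb G k))).filter (fun R => ∀ σ ∈ W w, R ∩ D w σ ≠ A w σ))).card := by
    have := Fintype.ofFinite {R : InjRel G k // ¬ Sep G a R.1.1}
    rw [Nat.card_eq_fintype_card, ← Finset.card_univ]
    exact Finset.card_le_card_of_injOn F (fun R _ => himg R) (fun _ _ _ _ h => hFinj h)
  have hN : (Fintype.card (InjOrb G k) : ℝ) ≤ Nat.card (Orb G (Fin k)) := by
    rw [Nat.card_eq_fintype_card]
    exact_mod_cast Fintype.card_subtype_le _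
  calc (Nat.card {R : InjRel G k // ¬ Sep G a R.1.1} : ℝ)
      ≤ (((univ : Finset (Option (Fin a) → InjOrb G k)).biUnion (fun w =>
      (univ : Finset (Finset (InjOrb G k))).filter (fun R => ∀ σ ∈ W w, R ∩ D w σ ≠ A w σ))).card : ℝ) := by
        exact_mod_cast hle
    _ ≤ ∑ w : Option (Fin a) → InjOrb G k, (((univ : Finset (Finset (InjOrb G k))).filter
        (fun R => ∀ σ ∈ W w, R ∩ D w σ ≠ A w σ)).card : ℝ) := by
        exact_mod_cast Finset.card_biUnion_le
    _ ≤ ∑ _w : Option (Fin a) → InjOrb G k, E * 2 ^ Fintype.card (InjOrb G k) := sum_le_sum (fun w _ => hcount w)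
    _ = (Fintype.card (InjOrb G k) : ℝ) ^ (a + 1) * (E * 2 ^ Fintype.card (InjOrb G k)) := by
        rw [sum_const, card_univ, nsmul_eq_mul, Fintype.card_fun, hcardO]
        push_cast
        rfl
    _ ≤ (Nat.card (Orb G (Fin k)) : ℝ) ^ (a + 1) * (E * 2 ^ Fintype.card (InjOrb G k)) := by
        apply mul_le_mul_of_nonneg_right _ (mul_nonneg (Real.exp_pos _).le (by positivity))
        exact pow_le_pow_left₀ (Nat.cast_nonneg _) hN _
    _ = _ := by
        rw [hInv]
        push_cast
        ring

end Pool.Agent.X99.SY
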