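import Pool.Agent.X99.SY.F

/-!
Separating relations primitively positively define all invariant relations of small arity which consist of injective
tuples, and pp-construct `K_3`.
-/

set_option autoImplicit false

namespace Pool.Agent.X99.SY

open Finset Pool.Agent.W994.AR

variable {B : Type}

/-- an injective tuple extends to an injective tuple -/
theorem exists_ext [Infinite B] {V U : Type} [Finite V] [Finite U] {v : V → B} (hv : Function.Injective v) :
    ∃ y : V ⊕ U → B, Function.Injective y ∧ ∀ x, y (Sum.inl x) = v x := by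
  have h1 : (Set.range v).Finite := Set.finite_range v
  have h2 : Infinite ((Set.range v)ᶜ : Set B) := h1.infinite_compl.to_subtype
  obtain ⟨n, ⟨e⟩⟩ := Finite.exists_equiv_fin U
  let f : U ↪ ((Set.range v)ᶜ : Set B) := (e.toEmbedding.trans (Fin.valEmbedding)).trans (Infinite.natEmbedding _)
  refine ⟨Sum.elim v (fun x => (f x : B)), ?_, fun _ => rfl⟩
  rintro (x | x) (y | y) h
  · exact congrArg _ (hv h)
  · exact absurd ⟨x, h⟩ (f y).2
  · exact absurd ⟨y, h.symm⟩ (f x).2
  · exact congrArg _ (f.injective (Subtype.ext h))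

/-- an injective tuple -/
theorem exists_inj [Infinite B] (k : ℕ) : ∃ v : Fin k → B, Function.Injective v :=
  ⟨fun i => Infinite.natEmbedding B i, fun _ _ h => Fin.ext ((Infinite.natEmbedding B).injective h)⟩

theorem exists_other [LinearOrder B] [Infinite B] {G : Subgroup (Equiv.Perm B)} (hG : ∀ g ∈ G, StrictMono g) {a k : ℕ}
    (hak : a < k.factorial) (u : Fin a → Fin k → B) :
    ∃ z : Fin k → B, Function.Injective z ∧ ∀ t, ¬ Same G (u t) z := by
  classical
  by_contra hcon
  push Not at hcon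
  obtain ⟨v, hv⟩ := exists_inj (B := B) k
  have h1 : ∀ σ : Equiv.Perm (Fin k), ∃ t, Same G (u t) (v ∘ σ) := fun σ => hcon _ (hv.comp σ.injective)
  choose T hT using h1
  have h2 : Function.Injective T := by
    intro σ τ h
    have := hT τ
    rw [← h] at this
    exact free hG hv ((hT σ).symm.trans this)
  have := Fintype.card_le_of_injective T h2
  rw [Fintype.card_perm, Fintype.card_fin, Fintype.card_fin] at this
  omega

/-- there are at least `k!` orbits of injective tuples -/
theorem factorial_le [LinearOrder B] [Infinite B] {G : Subgroup (Equiv.Perm B)} (hG : ∀ g ∈ G, StrictMono g) (k : ℕ)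
    [Finite (Orb G (Fin k))] : k.factorial ≤ Nat.card (InjOrb G k) := by
  classical
  obtain ⟨v, hv⟩ := exists_inj (B := B) k
  have h := Nat.card_le_card_of_injective (fun σ : Equiv.Perm (Fin k) => cls G (v ∘ σ) (hv.comp σ.injective)) (by
    intro σ τ h
    exact free hG hv ((cls_eq _ _).1 h))
  rwa [Nat.card_eq_fintype_card, Fintype.card_perm, Fintype.card_fin] at h

theorem pp_of_sep [LinearOrder B] [Infinite B] {G : Subgroup (Equiv.Perm B)} (hG : ∀ g ∈ G, StrictMono g)
    {ι : Type} {arΓ : ι → ℕ} (Γ : Str ι arΓ B) {V U : Type} [Finite V] [Finite U] {k a : ℕ} (e : Fin k ≃ V ⊕ U)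
    (hak : a < k.factorial) {R : Set (Fin k → B)} (hR : Invar G R) (hRi : ∀ v ∈ R, Function.Injective v)
    (hsep : Sep G a R) {S : Set (V → B)} (hS : Invar G S) (hSi : ∀ v ∈ S, Function.Injective v)
    (t : Fin a → V → B) (ht : ∀ l, t l ∈ S) (hcov : ∀ v ∈ S, ∃ l, Same G (t l) v) :
    PP (expand Γ (τ := Fin 1) (k := fun _ => k) (fun _ => R)) S := by
  classical
  choose y hy1 hy2 using fun l => exists_ext (U := U) (hSi _ (ht l))
  let Good : Set (Equiv.Perm (Fin k)) := {σ | ∀ l, (y l ∘ e) ∘ σ ∈ R}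
  have hrel : ∀ σ : Equiv.Perm (Fin k), PP (expand Γ (τ := Fin 1) (k := fun _ => k) (fun _ => R))
      {w : V ⊕ U → B | w ∘ (e ∘ σ) ∈ R} := by
    intro σ
    exact PP.rel (𝔸 := expand Γ (τ := Fin 1) (k := fun _ => k) (fun _ => R)) (V := V ⊕ U) (Sum.inr 0)
      (fun i : Fin k => e (σ i))
  have hpp : PP (expand Γ (τ := Fin 1) (k := fun _ => k) (fun _ => R))
      {v : V → B | ∃ u : U → B, Sum.elim v u ∈ {w : V ⊕ U → B | ∀ σ ∈ Good,
        w ∈ {w : V ⊕ U → B | w ∘ (e ∘ σ) ∈ R}}} :=
    PP.ex (PP.iInter Good (Set.toFinite _) _ (fun σ _ => hrel σ))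
  convert hpp using 1
  ext v
  constructor
  · intro hv
    obtain ⟨l, g, hg, h⟩ := hcov v hv
    refine ⟨fun x => g (y l (Sum.inr x)), fun σ hσ => ?_⟩
    have h1 := hR g hg _ (hσ l)
    have h2 : (Sum.elim v (fun x => g (y l (Sum.inr x)))) ∘ (e ∘ σ) = fun i => g (((y l ∘ e) ∘ σ) i) := by
      funext i
      simp only [Function.comp]
      rcases e (σ i) with x | x
      · simp only [Sum.elim_inl]
        rw [hy2, h]
      · rfl
    show _ ∈ R
    rw [h2]
    exact h1
  · rintro ⟨u, hu⟩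
    set z : Fin k → B := Sum.elim v u ∘ e with hz
    have hu' : ∀ σ ∈ Good, z ∘ σ ∈ R := fun σ hσ => hu σ hσ
    have hyinj : ∀ l, Function.Injective (y l ∘ e) := fun l => (hy1 l).comp e.injective
    obtain ⟨z0, hz0, hz0'⟩ := exists_other hG hak (fun l => y l ∘ e)
    obtain ⟨σ0, hσ0, _⟩ := hsep (fun l => y l ∘ e) z0 hyinj hz0 hz0'
    have hzinj : Function.Injective z := by
      have h1 := hRi _ (hu' σ0 hσ0)
      intro i j hij
      have h2 : (z ∘ σ0) (σ0.symm i) = (z ∘ σ0) (σ0.symm j) := by simpa using hij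
      exact σ0.symm.injective (h1 h2)
    by_contra hvS
    have hne : ∀ l, ¬ Same G (y l ∘ e) z := by
      rintro l ⟨g, hg, h⟩
      apply hvS
      have h3 : v = fun x => g (t l x) := by
        funext x
        have := h (e.symm (Sum.inl x))
        simp only [hz, Function.comp, Equiv.apply_symm_apply, Sum.elim_inl] at this
        rw [← this, hy2]
      rw [h3]
      exact hS g hg _ (ht l)
    obtain ⟨σ, hσ, hσ'⟩ := hsep (fun l => y l ∘ e) z hyinj hzinj hne
    exact hσ' (hu' σ hσ)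

theorem pp_empty {ι : Type} {arΓ : ι → ℕ} (Γ : Str ι arΓ B) {V : Type} {k : ℕ} (hk : 2 ≤ k)
    {R : Set (Fin k → B)} (hRi : ∀ v ∈ R, Function.Injective v) :
    PP (expand Γ (τ := Fin 1) (k := fun _ => k) (fun _ => R)) (∅ : Set (V → B)) := by
  have h := PP.ex (V := V) (U := Fin 1) (PP.rel (𝔸 := expand Γ (τ := Fin 1) (k := fun _ => k) (fun _ => R))
    (Sum.inr 0) (fun _ => Sum.inr 0))
  convert h using 1
  ext v
  constructor
  · intro h
    exact h.elim
  · rintro ⟨u, hu⟩
    have h1 := hRi _ hu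
    have h2 := @h1 ⟨0, by omega⟩ ⟨1, by omega⟩ rfl
    simp at h2

theorem pp_all_inj [LinearOrder B] [Infinite B] {G : Subgroup (Equiv.Perm B)} (hG : ∀ g ∈ G, StrictMono g)
    {ι : Type} {arΓ : ι → ℕ} (Γ : Str ι arΓ B) {V : Type} [Fintype V] [Finite (Orb G V)] {k a : ℕ} (hk : 2 ≤ k)
    (hV : Fintype.card V ≤ k) (hak : a < k.factorial) (ha : Nat.card (Orb G V) ≤ a) {R : Set (Fin k → B)}
    (hR : Invar G R) (hRi : ∀ v ∈ R, Function.Injective v) (hsep : Sep G a R) {S : Set (V → B)} (hS : Invar G S)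
    (hSi : ∀ v ∈ S, Function.Injective v) :
    PP (expand Γ (τ := Fin 1) (k := fun _ => k) (fun _ => R)) S := by
  classical
  rcases S.eq_empty_or_nonempty with rfl | ⟨s0, hs0⟩
  · exact pp_empty Γ hk hRi
  let E : Orb G V ≃ Fin (Nat.card (Orb G V)) := Finite.equivFin _
  let t : Fin a → V → B := fun l => if h : ∃ o : Orb G V, (E o : ℕ) = l ∧ o.out ∈ S then h.choose.out else s0
  have ht : ∀ l, t l ∈ S := by
    intro l
    simp only [t]
    split_ifs with h
    · exact h.choose_spec.2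
    · exact hs0
  have hcov : ∀ v ∈ S, ∃ l, Same G (t l) v := by
    intro v hv
    have h0 : Quotient.mk (orb G V) (Quotient.mk (orb G V) v).out = Quotient.mk (orb G V) v := Quotient.out_eq _
    have h1 : Same G (Quotient.mk (orb G V) v).out v := Quotient.exact h0
    have h2 : (Quotient.mk (orb G V) v).out ∈ S := Same.mem h1.symm hS hv
    have h3 : ∃ o : Orb G V, (E o : ℕ) = (E (Quotient.mk (orb G V) v) : ℕ) ∧ o.out ∈ S := ⟨_, rfl, h2⟩
    refine ⟨⟨E (Quotient.mk (orb G V) v), lt_of_lt_of_le (Fin.isLt _) ha⟩, ?_⟩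
    simp only [t]
    rw [dif_pos h3]
    have h4 : h3.choose = Quotient.mk (orb G V) v := E.injective (Fin.ext h3.choose_spec.1)
    rw [h4]
    exact h1
  have e : Fin k ≃ V ⊕ Fin (k - Fintype.card V) := (Fintype.equivFinOfCardEq (by
    rw [Fintype.card_sum, Fintype.card_fin]
    omega)).symm
  exact pp_of_sep hG Γ e hak hR hRi hsep hS hSi t ht hcov

/-- `i` is the position of the maximum -/
def Mx [LinearOrder B] (i : Fin 3) (x : Fin 3 → B) : Prop := ∀ l, l ≠ i → x l < x i

theorem Mx.unique [LinearOrder B] {i j : Fin 3} {x : Fin 3 → B} (hi : Mx i x) (hj : Mx j x) : i = j := by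
  by_contra h
  exact lt_asymm (hi j (fun h' => h h'.symm)) (hj i h)

theorem exists_Mx [LinearOrder B] {x : Fin 3 → B} (hx : Function.Injective x) : ∃ i, Mx i x := by
  obtain ⟨i, _, hi⟩ := Finset.exists_max_image univ x ⟨0, mem_univ _⟩
  exact ⟨i, fun l hl => lt_of_le_of_ne (hi l (mem_univ _)) (fun h => hl (hx h))⟩

/-- two triples whose maxima are at different positions -/
def K3rel (B : Type) [LinearOrder B] : Set (Fin 3 ⊕ Fin 3 → B) :=
  {w | Function.Injective w ∧ ∀ i, ¬ (Mx i (fun l => w (Sum.inl l)) ∧ Mx i (fun l => w (Sum.inr l)))}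

theorem K3rel_invar [LinearOrder B] {G : Subgroup (Equiv.Perm B)} (hG : ∀ g ∈ G, StrictMono g) :
    Invar G (K3rel B) := by
  intro g hg w hw
  refine ⟨fun i j h => hw.1 (g.injective h), fun i h => hw.2 i ⟨fun l hl => ?_, fun l hl => ?_⟩⟩
  · exact (hG g hg).lt_iff_lt.1 (h.1 l hl)
  · exact (hG g hg).lt_iff_lt.1 (h.2 l hl)

def idx (i l : Fin 3) : Fin 9 := ⟨3 * (i : ℕ) + ((l : ℕ) + 5 - i) % 3, by omega⟩

theorem idx_inj : ∀ i l i' l', idx i l = idx i' l' → i = i' ∧ l = l' := by decide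

theorem idx_max : ∀ i l, l ≠ i → idx i l < idx i i := by decide

theorem K3_of_pp [LinearOrder B] [Infinite B] {ι : Type} {ar : ι → ℕ} {𝔸 : Str ι ar B} (h : PP 𝔸 (K3rel B)) :
    PPConstructsK3 𝔸 := by
  classical
  refine ⟨3, K3rel B, by norm_num, h.toPPDef, ?_, ?_⟩
  · obtain ⟨s, hs⟩ := Infinite.exists_subset_card_eq B 9
    let c : Fin 9 ↪o B := s.orderEmbOfFin hs
    have hidx := idx_inj
    have hmax := idx_max
    have hM : ∀ i, Mx i (fun l => c (idx i l)) := fun i l hl => c.strictMono (hmax i l hl)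
    refine ⟨fun i l => c (idx i l), fun i j hij => ⟨?_, ?_⟩⟩
    · rintro (x | x) (y | y) hxy
      · exact congrArg _ (hidx _ _ _ _ (c.injective hxy)).2
      · exact absurd (hidx _ _ _ _ (c.injective hxy)).1 hij
      · exact absurd (hidx _ _ _ _ (c.injective hxy)).1.symm hij
      · exact congrArg _ (hidx _ _ _ _ (c.injective hxy)).2
    · rintro l ⟨h1, h2⟩
      exact hij ((Mx.unique (hM i) h1).trans (Mx.unique (hM j) h2).symm)
  · let g : (Fin 3 → B) → Fin 3 := fun x => if h : ∃ i, Mx i x then h.choose else 0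
    have hg : ∀ x, Function.Injective x → Mx (g x) x := by
      intro x hx
      have h1 := exists_Mx hx
      simp only [g]
      rw [dif_pos h1]
      exact h1.choose_spec
    refine ⟨g, fun x y hxy heq => ?_⟩
    have hx : Function.Injective x := fun i j hij => Sum.inl_injective (hxy.1 (a₁ := Sum.inl i) (a₂ := Sum.inl j) hij)
    have hy : Function.Injective y := fun i j hij => Sum.inr_injective (hxy.1 (a₁ := Sum.inr i) (a₂ := Sum.inr j) hij)
    refine hxy.2 (g x) ⟨hg x hx, ?_⟩
    rw [heq]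
    exact hg y hy

end Pool.Agent.X99.SY
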