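import Pool.Agent.X99.SY.E

/-!
Clone homomorphisms to the clone of projections, and type clones.
-/

set_option autoImplicit false

namespace Pool.Agent.X99.SY

open Pool.Agent.W994.AR

/-- sets of finitary operations on `X`, one set for each arity -/
abbrev Ops (X : Type) : Type := ∀ n : ℕ, Set ((Fin n → X) → X)

/-- `C` has a clone homomorphism to the clone of projections on `{0,1}`: every operation of `C` of arity `n + 1` is sent to a
projection, given by its coordinate, the projections are sent to the corresponding projections, and compositions of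
operations of `C` are preserved -/
def HomToProj {X : Type} (C : Ops X) : Prop :=
  ∃ ξ : ∀ n : ℕ, ((Fin (n + 1) → X) → X) → Fin (n + 1),
    (∀ (n : ℕ) (i : Fin (n + 1)), ξ n (fun x => x i) = i) ∧
    ∀ (n m : ℕ) (f : (Fin (n + 1) → X) → X) (g : Fin (n + 1) → (Fin (m + 1) → X) → X),
      f ∈ C (n + 1) → (∀ i, g i ∈ C (m + 1)) → ξ m (fun x => f (fun i => g i x)) = ξ m (g (ξ n f))

/-- the polymorphism clone -/
def Pol {B ι : Type} {ar : ι → ℕ} (𝔸 : Str ι ar B) : Ops B := fun _ => {f | IsPol 𝔸 f}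

variable {B : Type}

/-- the pointwise stabilizer of `c` in `G`: the automorphism group of the expansion by the constants `c` -/
def stab (G : Subgroup (Equiv.Perm B)) {n : ℕ} (c : Fin n → B) : Subgroup (Equiv.Perm B) where
  carrier := {g | g ∈ G ∧ ∀ i, g (c i) = c i}
  mul_mem' := by
    rintro g h ⟨hg, hg'⟩ ⟨hh, hh'⟩
    exact ⟨G.mul_mem hg hh, fun i => by rw [Equiv.Perm.mul_apply, hh', hg']⟩
  one_mem' := ⟨G.one_mem, fun _ => rfl⟩
  inv_mem' := by
    rintro g ⟨hg, hg'⟩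
    exact ⟨G.inv_mem hg, fun i => by rw [Equiv.Perm.inv_eq_iff_eq]; exact (hg' i).symm⟩

/-- for every `m` the `m`-type of `f(a^1, ..., a^k)` depends only on the `m`-types of the `a^i` -/
def Canonical (H : Subgroup (Equiv.Perm B)) {k : ℕ} (f : (Fin k → B) → B) : Prop :=
  ∀ (m : ℕ) (a b : Fin k → Fin m → B), (∀ i, Same H (a i) (b i)) →
    Same H (fun j => f (fun i => a i j)) (fun j => f (fun i => b i j))

/-- the type clone: the operations on the `m`-types induced by the canonical polymorphisms -/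
def TypeClone (H : Subgroup (Equiv.Perm B)) (m : ℕ) {ι : Type} {ar : ι → ℕ} (𝔸 : Str ι ar B) :
    Ops (Orb H (Fin m)) := fun k =>
  {F | ∃ f : (Fin k → B) → B, IsPol 𝔸 f ∧ Canonical H f ∧
    ∀ a : Fin k → Fin m → B, F (fun i => Quotient.mk (orb H (Fin m)) (a i)) =
      Quotient.mk (orb H (Fin m)) (fun j => f (fun i => a i j))}

theorem not_hom_of_const {X : Type} {C : Ops X} (hproj : ∀ i : Fin 2, (fun x : Fin 2 → X => x i) ∈ C 2) {c : X}
    (hc : (fun _ : Fin 2 → X => c) ∈ C 2) : ¬ HomToProj C := by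
  rintro ⟨ξ, h1, h2⟩
  have h := h2 1 1 (fun _ => c) (fun i x => x (1 - i)) hc (fun i => hproj _)
  have h3 := h1 1 (1 - ξ 1 (fun _ => c))
  have h4 : ∀ a : Fin 2, a ≠ 1 - a := by decide
  exact h4 (ξ 1 (fun _ => c)) (h.trans h3)

theorem not_hom_pol {ι : Type} {ar : ι → ℕ} {𝔸 : Str ι ar B} (h : ConstEndo 𝔸) : ¬ HomToProj (Pol 𝔸) := by
  obtain ⟨b, hb⟩ := h
  exact not_hom_of_const (C := Pol 𝔸) (c := b) (fun i l v hv => hv i) (fun l v hv => hb l (v 0) (hv 0))

theorem not_hom_type {ι : Type} {ar : ι → ℕ} {𝔸 : Str ι ar B} (h : ConstEndo 𝔸) (H : Subgroup (Equiv.Perm B)) (m : ℕ) :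
    ¬ HomToProj (TypeClone H m 𝔸) := by
  obtain ⟨b, hb⟩ := h
  refine not_hom_of_const (C := TypeClone H m 𝔸) (c := Quotient.mk (orb H (Fin m)) (fun _ => b)) ?_ ?_
  · intro i
    exact ⟨fun x => x i, fun l v hv => hv i, fun m a b h => h i, fun a => rfl⟩
  · exact ⟨fun _ => b, fun l v hv => hb l (v 0) (hv 0), fun m a b h => Same.refl H _, fun a => rfl⟩

theorem hom_of_unary {X : Type} (C : Ops X) (ρ : X → X → Prop) (hrefl : ∀ x, ρ x x) (hne : ∃ x y, ¬ ρ x y)
    (h : ∀ n, ∀ f ∈ C (n + 1), ∃ (i : Fin (n + 1)) (e : X → X), (∀ x y, ρ (e x) (e y) ↔ ρ x y) ∧ ∀ x, f x = e (x i)) :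
    HomToProj C := by
  classical
  let Good : ∀ n : ℕ, ((Fin (n + 1) → X) → X) → Fin (n + 1) → Prop := fun n f i =>
    ∃ e : X → X, (∀ x y, ρ (e x) (e y) ↔ ρ x y) ∧ ∀ x, f x = e (x i)
  have huniq : ∀ n f i i', Good n f i → Good n f i' → i = i' := by
    rintro n f i i' ⟨e, he, hf⟩ ⟨e', _, hf'⟩
    by_contra hii
    obtain ⟨x, y, hxy⟩ := hne
    have h1 : f (Function.update (fun _ => x) i y) = e y := by
      rw [hf, Function.update_self]
    have h2 : f (Function.update (fun _ => x) i y) = f (fun _ => x) := by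
      rw [hf', hf', Function.update_of_ne (fun h => hii h.symm)]
    have h3 : f (fun _ => x) = e x := hf _
    apply hxy
    rw [← he, ← h3, ← h2, h1]
    exact hrefl _
  let ξ : ∀ n : ℕ, ((Fin (n + 1) → X) → X) → Fin (n + 1) := fun n f =>
    if h : ∃ i, Good n f i then h.choose else 0
  have hξ : ∀ n f i, Good n f i → ξ n f = i := by
    intro n f i hi
    have h1 : ∃ i, Good n f i := ⟨i, hi⟩
    simp only [ξ]
    rw [dif_pos h1]
    exact huniq n f _ _ h1.choose_spec hi
  refine ⟨ξ, fun n i => hξ n _ i ⟨fun x => x, fun _ _ => Iff.rfl, fun _ => rfl⟩, ?_⟩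
  intro n m f g hf hg
  obtain ⟨i, e, he, hfe⟩ := h n f hf
  rw [hξ n f i ⟨e, he, hfe⟩]
  obtain ⟨l, e', he', hge⟩ := h m (g i) (hg i)
  rw [hξ m (g i) l ⟨e', he', hge⟩]
  apply hξ
  refine ⟨fun x => e (e' x), fun x y => (he _ _).trans (he' _ _), fun x => ?_⟩
  show f (fun i => g i x) = e (e' (x l))
  rw [hfe, hge]

theorem closure_inj {G : Subgroup (Equiv.Perm B)} {e : B → B} (he : InClosure G e) {x y : B} (h : e x = e y) : x = y := by
  classical
  obtain ⟨g, _, hg⟩ := he {x, y}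
  have h0 := hg x (by simp)
  have h1 := hg y (by simp)
  apply g.injective
  rw [← h0, ← h1, h]

theorem hom_pol [Nontrivial B] {G : Subgroup (Equiv.Perm B)} {ι : Type} {ar : ι → ℕ} {𝔸 : Str ι ar B}
    (h : PPMax G 𝔸) : HomToProj (Pol 𝔸) := by
  refine hom_of_unary (Pol 𝔸) (fun x y => x = y) (fun _ => rfl) (exists_pair_ne B) ?_
  intro n f hf
  obtain ⟨i, e, he, hfe⟩ := h.2.2 (n + 1) f hf
  exact ⟨i, e, fun x y => ⟨fun hxy => closure_inj he hxy, fun hxy => by rw [hxy]⟩, hfe⟩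

theorem hom_type [Nontrivial B] {G : Subgroup (Equiv.Perm B)} {ι : Type} {ar : ι → ℕ} {𝔸 : Str ι ar B}
    (h : PPMax G 𝔸) (H : Subgroup (Equiv.Perm B)) {m : ℕ} (hm : 2 ≤ m) : HomToProj (TypeClone H m 𝔸) := by
  classical
  let χ : Orb H (Fin m) → Prop := fun o => ∃ v : Fin m → B, (∀ j l, v j = v l) ∧ Quotient.mk (orb H (Fin m)) v = o
  have hχ : ∀ a : Fin m → B, χ (Quotient.mk (orb H (Fin m)) a) ↔ ∀ j l, a j = a l := by
    intro a
    constructor
    · rintro ⟨v, hv, h⟩ j l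
      obtain ⟨g, _, hg⟩ : Same H v a := Quotient.exact h
      rw [← hg, ← hg, hv j l]
    · intro ha
      exact ⟨a, ha, rfl⟩
  refine hom_of_unary (TypeClone H m 𝔸) (fun s t => χ s ↔ χ t) (fun _ => Iff.rfl) ?_ ?_
  · obtain ⟨b, b', hb⟩ := exists_pair_ne B
    refine ⟨Quotient.mk (orb H (Fin m)) (fun _ => b), Quotient.mk (orb H (Fin m)) (fun j => if (j : ℕ) = 0 then b else b'),
      fun hcon => ?_⟩
    have h1 := (hχ _).1 (hcon.1 ((hχ _).2 (fun _ _ => rfl))) ⟨0, by omega⟩ ⟨1, by omega⟩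
    simp at h1
    exact hb h1
  · rintro n F ⟨f, hf, _, hF⟩
    obtain ⟨i, e, he, hfe⟩ := h.2.2 (n + 1) f hf
    have hE : ∀ a : Fin m → B, F (fun _ => Quotient.mk (orb H (Fin m)) a) =
        Quotient.mk (orb H (Fin m)) (fun j => e (a j)) := by
      intro a
      rw [hF (fun _ => a)]
      congr 1
      funext j
      exact hfe _
    refine ⟨i, fun o => F (fun _ => o), ?_, ?_⟩
    · have h1 : ∀ o, χ (F (fun _ => o)) ↔ χ o := by
        intro o
        induction o using Quotient.inductionOn with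
        | h a =>
          rw [hE, hχ, hχ]
          exact ⟨fun h j l => closure_inj he (h j l), fun h j l => by rw [h j l]⟩
      intro s t
      show (χ _ ↔ χ _) ↔ (χ s ↔ χ t)
      rw [h1, h1]
    · intro x
      have h2 : ∃ a : Fin (n + 1) → Fin m → B, x = fun i => Quotient.mk (orb H (Fin m)) (a i) :=
        ⟨fun i => (x i).out, funext fun i => (Quotient.out_eq (x i)).symm⟩
      obtain ⟨a, rfl⟩ := h2
      show F _ = F (fun _ => Quotient.mk (orb H (Fin m)) (a i))
      rw [hF, hE]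
      congr 1
      funext j
      exact hfe _

/-- the polymorphism clone has a clone homomorphism to the projections if and only if the type clones have one -/
theorem iff_of_dichotomy [Nontrivial B] {G : Subgroup (Equiv.Perm B)} {ι : Type} {ar : ι → ℕ} {𝔸 : Str ι ar B}
    (h : ConstEndo 𝔸 ∨ PPMax G 𝔸) (H : Subgroup (Equiv.Perm B)) {m : ℕ} (hm : 2 ≤ m) :
    HomToProj (Pol 𝔸) ↔ HomToProj (TypeClone H m 𝔸) := by
  rcases h with h | h
  · exact ⟨fun h' => absurd h' (not_hom_pol h), fun h' => absurd h' (not_hom_type h H m)⟩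
  · exact ⟨fun _ => hom_type h H hm, fun _ => hom_pol h⟩

end Pool.Agent.X99.SY
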