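import Pool.Agent.X99.SY.G
import Pool.Agent.X99.SY.H

/-!
Structures which pp-define all injective invariant relations of arity 6, for a group which preserves a linear order: each
polymorphism has a coordinate which determines the order of its values on pairs of coordinatewise distinct tuples.
-/

set_option autoImplicit false

namespace Pool.Agent.X99.SY

open Pool.Agent.W994.AR

variable {B : Type}

/-- a Boolean function which commutes with the set operations is given by a coordinate -/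
theorem coord_of_bool {n : ℕ} (φ : Finset (Fin n) → Prop) (h0 : ¬ φ ∅) (h1 : φ Finset.univ)
    (hU : ∀ S T, φ (S ∪ T) ↔ (φ S ∨ φ T)) (hI : ∀ S T, φ (S ∩ T) ↔ (φ S ∧ φ T)) : ∃ i, ∀ S, φ S ↔ i ∈ S := by
  classical
  have h2 : ∃ i, φ {i} := by
    by_contra hcon
    push Not at hcon
    have : ∀ S : Finset (Fin n), ¬ φ S := by
      intro S
      induction S using Finset.induction_on with
      | empty => exact h0
      | insert a S _ ih =>
        rw [Finset.insert_eq, hU]
        rintro (h | h)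
        · exact hcon a h
        · exact ih h
    exact this _ h1
  obtain ⟨i, hi⟩ := h2
  refine ⟨i, fun S => ⟨fun h => ?_, fun h => ?_⟩⟩
  · by_contra hiS
    have h3 := (hI S {i}).2 ⟨h, hi⟩
    have h4 : S ∩ {i} = ∅ := by
      rw [Finset.inter_singleton_of_notMem hiS]
    rw [h4] at h3
    exact h0 h3
  · have h3 : S ∪ {i} = S := by
      rw [Finset.union_eq_left]
      exact Finset.singleton_subset_iff.2 h
    rw [← h3, hU]
    exact Or.inr hi

/-- the pairs of coordinatewise distinct tuples are ordered by `f` as their `i`-th coordinates -/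
def GoodB [LinearOrder B] {n : ℕ} (f : (Fin n → B) → B) (i : Fin n) : Prop :=
  ∀ x y : Fin n → B, (∀ a, x a ≠ y a) → f x ≠ f y ∧ (f x < f y ↔ x i < y i)

/-- three pairs whose orders satisfy a Boolean relation -/
def Rel3 (B : Type) [LinearOrder B] (T : Prop → Prop → Prop → Prop) : Set (Fin 3 ⊕ Fin 3 → B) :=
  {w | Function.Injective w ∧ T (w (Sum.inl 0) < w (Sum.inr 0)) (w (Sum.inl 1) < w (Sum.inr 1))
    (w (Sum.inl 2) < w (Sum.inr 2))}

theorem Rel3_invar [LinearOrder B] {G : Subgroup (Equiv.Perm B)} (hG : ∀ g ∈ G, StrictMono g)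
    (T : Prop → Prop → Prop → Prop) : Invar G (Rel3 B T) := by
  intro g hg w hw
  refine ⟨fun i j h => hw.1 (g.injective h), ?_⟩
  simp only [(hG g hg).lt_iff_lt]
  exact hw.2

def pos (j : Fin 3) (b : Bool) : Fin 6 := ⟨2 * (j : ℕ) + b.toNat, by
  have := Bool.toNat_le b
  omega⟩

theorem pos_inj : ∀ j b j' b', pos j b = pos j' b' → j = j' ∧ b = b' := by decide

theorem pos_lt : ∀ j b b', pos j b < pos j b' ↔ (b = false ∧ b' = true) := by decide

/-- left elements of the pairs -/
def lft (c : Fin 6 → B) {n : ℕ} (A : Finset (Fin n)) (j : Fin 3) : Fin n → B := fun a => c (pos j (decide (a ∉ A)))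

/-- right elements of the pairs -/
def rgt (c : Fin 6 → B) {n : ℕ} (A : Finset (Fin n)) (j : Fin 3) : Fin n → B := fun a => c (pos j (decide (a ∈ A)))

theorem lft_lt [LinearOrder B] {c : Fin 6 → B} (hc : StrictMono c) {n : ℕ} (A : Finset (Fin n)) (j : Fin 3)
    (a : Fin n) : lft c A j a < rgt c A j a ↔ a ∈ A := by
  unfold lft rgt
  rw [hc.lt_iff_lt, pos_lt]
  simp

theorem step [LinearOrder B] {ι : Type} {ar : ι → ℕ} {𝔸 : Str ι ar B}
    (hpp : ∀ T : Prop → Prop → Prop → Prop, PP 𝔸 (Rel3 B T)) {n : ℕ} {f : (Fin n → B) → B} (hf : IsPol 𝔸 f)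
    (T : Prop → Prop → Prop → Prop) (X Y : Fin 3 → Fin n → B)
    (hinj : ∀ a, Function.Injective (Sum.elim (fun j => X j a) (fun j => Y j a)))
    (hT : ∀ a, T (X 0 a < Y 0 a) (X 1 a < Y 1 a) (X 2 a < Y 2 a)) :
    f (X 0) ≠ f (Y 0) ∧ T (f (X 0) < f (Y 0)) (f (X 1) < f (Y 1)) (f (X 2) < f (Y 2)) := by
  have h := hf.preserves (hpp T) (fun a => Sum.elim (fun j => X j a) (fun j => Y j a)) (fun a => ⟨hinj a, hT a⟩)
  refine ⟨fun he => ?_, h.2⟩
  have h1 := h.1 (a₁ := Sum.inl 0) (a₂ := Sum.inr 0) he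
  exact absurd h1 (by simp)

theorem inj_pairs {c : Fin 6 → B} (hc : Function.Injective c) {n : ℕ} (A : Fin 3 → Finset (Fin n)) (a : Fin n) :
    Function.Injective (Sum.elim (fun j => lft c (A j) j a) (fun j => rgt c (A j) j a)) := by
  rintro (j | j) (l | l) h
  · exact congrArg _ (pos_inj _ _ _ _ (hc h)).1
  · obtain ⟨h1, h2⟩ := pos_inj _ _ _ _ (hc h)
    subst h1
    by_cases ha : a ∈ A j <;> simp [ha] at h2
  · obtain ⟨h1, h2⟩ := pos_inj _ _ _ _ (hc h)
    subst h1
    by_cases ha : a ∈ A j <;> simp [ha] at h2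
  · exact congrArg _ (pos_inj _ _ _ _ (hc h)).1

theorem compare [LinearOrder B] {ι : Type} {ar : ι → ℕ} {𝔸 : Str ι ar B}
    (hpp : ∀ T : Prop → Prop → Prop → Prop, PP 𝔸 (Rel3 B T)) {n : ℕ} {f : (Fin n → B) → B} (hf : IsPol 𝔸 f)
    {d : Fin 6 → B} (hd : StrictMono d) {x y : Fin n → B} (hxy : ∀ a, x a ≠ y a) (hx : ∀ a l, x a ≠ d l)
    (hy : ∀ a l, y a ≠ d l) {A : Finset (Fin n)} (hA : ∀ a, x a < y a ↔ a ∈ A) :
    f x ≠ f y ∧ (f x < f y ↔ f (lft d A 1) < f (rgt d A 1)) := by
  have h := step hpp hf (fun p q _ => (p ↔ q)) ![x, lft d A 1, lft d A 2] ![y, rgt d A 1, rgt d A 2] ?_ ?_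
  · exact h
  · intro a
    have h1 := inj_pairs hd.injective (fun _ => A) a
    have h12 : ∀ s t : Fin 3 ⊕ Fin 3, s ≠ Sum.inl 0 → s ≠ Sum.inr 0 → t ≠ Sum.inl 0 → t ≠ Sum.inr 0 →
        Sum.elim (fun j => (![x, lft d A 1, lft d A 2] : Fin 3 → Fin n → B) j a)
          (fun j => (![y, rgt d A 1, rgt d A 2] : Fin 3 → Fin n → B) j a) s =
        Sum.elim (fun j => (![x, lft d A 1, lft d A 2] : Fin 3 → Fin n → B) j a)
          (fun j => (![y, rgt d A 1, rgt d A 2] : Fin 3 → Fin n → B) j a) t → s = t := by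
      intro s t hs hs' ht ht' he
      have hval : ∀ s : Fin 3 ⊕ Fin 3, s ≠ Sum.inl 0 → s ≠ Sum.inr 0 →
          Sum.elim (fun j => (![x, lft d A 1, lft d A 2] : Fin 3 → Fin n → B) j a)
            (fun j => (![y, rgt d A 1, rgt d A 2] : Fin 3 → Fin n → B) j a) s =
          Sum.elim (fun j => lft d A j a) (fun j => rgt d A j a) s := by
        rintro (s | s) hs hs'
        · fin_cases s
          · exact absurd rfl hs
          · rfl
          · rfl
        · fin_cases s
          · exact absurd rfl hs'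
          · rfl
          · rfl
      rw [hval s hs hs', hval t ht ht'] at he
      exact h1 he
    have hd0 : ∀ s : Fin 3 ⊕ Fin 3, s ≠ Sum.inl 0 → s ≠ Sum.inr 0 → ∃ l,
        Sum.elim (fun j => (![x, lft d A 1, lft d A 2] : Fin 3 → Fin n → B) j a)
          (fun j => (![y, rgt d A 1, rgt d A 2] : Fin 3 → Fin n → B) j a) s = d l := by
      rintro (s | s) hs hs'
      · fin_cases s
        · exact absurd rfl hs
        · exact ⟨_, rfl⟩
        · exact ⟨_, rfl⟩
      · fin_cases s
        · exact absurd rfl hs'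
        · exact ⟨_, rfl⟩
        · exact ⟨_, rfl⟩
    intro s t he
    by_cases hs : s = Sum.inl 0
    · subst hs
      by_cases ht : t = Sum.inl 0
      · exact ht.symm
      · by_cases ht' : t = Sum.inr 0
        · subst ht'
          exact absurd he (hxy a)
        · obtain ⟨l, hl⟩ := hd0 t ht ht'
          rw [hl] at he
          exact absurd he (hx a l)
    · by_cases hs' : s = Sum.inr 0
      · subst hs'
        by_cases ht : t = Sum.inl 0
        · subst ht
          exact absurd he.symm (hxy a)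
        · by_cases ht' : t = Sum.inr 0
          · exact ht'.symm
          · obtain ⟨l, hl⟩ := hd0 t ht ht'
            rw [hl] at he
            exact absurd he (hy a l)
      · obtain ⟨l, hl⟩ := hd0 s hs hs'
        by_cases ht : t = Sum.inl 0
        · subst ht
          rw [hl] at he
          exact absurd he.symm (hx a l)
        · by_cases ht' : t = Sum.inr 0
          · subst ht'
            rw [hl] at he
            exact absurd he.symm (hy a l)
          · exact h12 s t hs hs' ht ht' he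
  · intro a
    show (x a < y a ↔ lft d A 1 a < rgt d A 1 a)
    rw [lft_lt hd, hA]

theorem exists_mono [LinearOrder B] [Infinite B] (F : Finset B) : ∃ d : Fin 6 → B, StrictMono d ∧ ∀ l, d l ∉ F := by
  classical
  have h1 : Infinite {b : B // b ∉ F} := by
    have := F.finite_toSet.infinite_compl
    exact this.to_subtype
  obtain ⟨s, hs⟩ := Infinite.exists_subset_card_eq {b : B // b ∉ F} 6
  exact ⟨fun l => (s.orderEmbOfFin hs l).1, fun i j h => (s.orderEmbOfFin hs).strictMono h,
    fun l => (s.orderEmbOfFin hs l).2⟩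

/-- each polymorphism has a coordinate -/
theorem exists_good [LinearOrder B] [Infinite B] {ι : Type} {ar : ι → ℕ} {𝔸 : Str ι ar B}
    (hpp : ∀ T : Prop → Prop → Prop → Prop, PP 𝔸 (Rel3 B T)) {n : ℕ} {f : (Fin n → B) → B} (hf : IsPol 𝔸 f) :
    ∃ i, GoodB f i := by
  classical
  obtain ⟨c, hc, _⟩ := exists_mono (B := B) ∅
  have hlaw : ∀ (T : Prop → Prop → Prop → Prop) (A : Fin 3 → Finset (Fin n)),
      (∀ a, T (a ∈ A 0) (a ∈ A 1) (a ∈ A 2)) → T (f (lft c (A 0) 0) < f (rgt c (A 0) 0))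
        (f (lft c (A 1) 1) < f (rgt c (A 1) 1)) (f (lft c (A 2) 2) < f (rgt c (A 2) 2)) := by
    intro T A hA
    have h := step hpp hf T (fun j => lft c (A j) j) (fun j => rgt c (A j) j) (fun a => inj_pairs hc.injective A a) ?_
    · exact h.2
    · intro a
      have e : ∀ j, (lft c (A j) j a < rgt c (A j) j a) = (a ∈ A j) := fun j => propext (lft_lt hc (A j) j a)
      rw [e, e, e]
      exact hA a
  let φ : Finset (Fin n) → Prop := fun A => f (lft c A 0) < f (rgt c A 0)
  have h1 : ∀ A : Finset (Fin n), (f (lft c A 1) < f (rgt c A 1)) ↔ φ A := fun A =>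
    hlaw (fun p q _ => (q ↔ p)) (fun _ => A) (fun _ => Iff.rfl)
  have h2 : ∀ A : Finset (Fin n), (f (lft c A 2) < f (rgt c A 2)) ↔ φ A := fun A =>
    hlaw (fun p _ q => (q ↔ p)) (fun _ => A) (fun _ => Iff.rfl)
  obtain ⟨i, hi⟩ := coord_of_bool φ (hlaw (fun p _ _ => ¬ p) (fun _ => ∅) (fun a => by simp))
    (hlaw (fun p _ _ => p) (fun _ => Finset.univ) (fun a => by simp))
    (fun S T => by
      have h := hlaw (fun p q r => (p ↔ (q ∨ r))) ![S ∪ T, S, T] (fun a => by simp)
      have h' : φ (S ∪ T) ↔ ((f (lft c S 1) < f (rgt c S 1)) ∨ (f (lft c T 2) < f (rgt c T 2))) := h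
      rwa [h1, h2] at h')
    (fun S T => by
      have h := hlaw (fun p q r => (p ↔ (q ∧ r))) ![S ∩ T, S, T] (fun a => by simp)
      have h' : φ (S ∩ T) ↔ ((f (lft c S 1) < f (rgt c S 1)) ∧ (f (lft c T 2) < f (rgt c T 2))) := h
      rwa [h1, h2] at h')
  refine ⟨i, fun x y hxy => ?_⟩
  obtain ⟨d, hd, hdF⟩ := exists_mono (Finset.univ.image x ∪ Finset.univ.image y ∪ Finset.univ.image c)
  have hdx : ∀ a l, x a ≠ d l := fun a l h => hdF l (by
    rw [← h]
    simp)
  have hdy : ∀ a l, y a ≠ d l := fun a l h => hdF l (by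
    rw [← h]
    simp)
  have hdc : ∀ b l, c b ≠ d l := fun b l h => hdF l (by
    rw [← h]
    simp)
  set A : Finset (Fin n) := Finset.univ.filter (fun a => x a < y a) with hA
  have hA' : ∀ a, x a < y a ↔ a ∈ A := fun a => by simp [hA]
  have c1 := compare hpp hf hd hxy hdx hdy hA'
  have c2 := compare hpp hf hd (x := lft c A 0) (y := rgt c A 0) (A := A) (fun a h => by
    have h3 := (pos_inj _ _ _ _ (hc.injective h)).2
    by_cases ha : a ∈ A <;> simp [ha] at h3) (fun a l => hdc _ l) (fun a l => hdc _ l) (fun a => lft_lt hc A 0 a)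
  refine ⟨c1.1, ?_⟩
  rw [c1.2, ← c2.2, hA' i]
  exact hi A

end Pool.Agent.X99.SY
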