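import Pool.Agent.X99.SY.I

/-!
Clone homomorphisms to the projections from the coordinates of the polymorphisms.
-/

set_option autoImplicit false

namespace Pool.Agent.X99.SY

open Pool.Agent.W994.AR

variable {B : Type}

theorem hom_of_good {X : Type} (C : Ops X) (Good : ∀ n : ℕ, ((Fin (n + 1) → X) → X) → Fin (n + 1) → Prop)
    (hex : ∀ n, ∀ f ∈ C (n + 1), ∃ i, Good n f i) (huniq : ∀ n f i i', Good n f i → Good n f i' → i = i')
    (hproj : ∀ n i, Good n (fun x => x i) i)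
    (hcomp : ∀ (n m : ℕ) (f : (Fin (n + 1) → X) → X) (g : Fin (n + 1) → (Fin (m + 1) → X) → X) (i : Fin (n + 1))
      (L : Fin (n + 1) → Fin (m + 1)), Good n f i → (∀ j, Good m (g j) (L j)) →
        Good m (fun x => f (fun j => g j x)) (L i)) : HomToProj C := by
  classical
  let ξ : ∀ n : ℕ, ((Fin (n + 1) → X) → X) → Fin (n + 1) := fun n f =>
    if h : ∃ i, Good n f i then h.choose else 0
  have hξ : ∀ n f i, Good n f i → ξ n f = i := by
    intro n f i hi
    have h1 : ∃ i, Good n f i := ⟨i, hi⟩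
    simp only [ξ]
    rw [dif_pos h1]
    exact huniq n f _ _ h1.choose_spec hi
  refine ⟨ξ, fun n i => hξ n _ i (hproj n i), ?_⟩
  intro n m f g hf hg
  obtain ⟨i, hi⟩ := hex n f hf
  choose L hL using fun j => hex m (g j) (hg j)
  rw [hξ n f i hi, hξ m (g i) (L i) (hL i)]
  exact hξ _ _ _ (hcomp n m f g i L hi hL)

theorem GoodB.unique [LinearOrder B] [Nontrivial B] {n : ℕ} {f f' : (Fin n → B) → B} {i i' : Fin n}
    (h : GoodB f i) (h' : GoodB f' i') (hff : ∀ x y, f x < f y → f' x < f' y) : i = i' := by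
  by_contra hii
  obtain ⟨b, b', hb⟩ := exists_pair_lt B
  let x : Fin n → B := fun a => if a = i then b else b'
  let y : Fin n → B := fun a => if a = i then b' else b
  have hxy : ∀ a, x a ≠ y a := by
    intro a
    simp only [x, y]
    split_ifs
    · exact hb.ne
    · exact hb.ne'
  have h1 : f x < f y := (h x y hxy).2.2 (by simp [x, y, hb])
  have h2 := (h' x y hxy).2.1 (hff x y h1)
  have h3 : ¬ i' = i := fun h => hii h.symm
  simp only [x, y, if_neg h3] at h2
  exact lt_asymm hb h2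

theorem GoodB.comp [LinearOrder B] {n m : ℕ} {f : (Fin n → B) → B} {g : Fin n → (Fin m → B) → B} {i : Fin n}
    {L : Fin n → Fin m} (hf : GoodB f i) (hg : ∀ j, GoodB (g j) (L j)) :
    GoodB (fun x => f (fun j => g j x)) (L i) := by
  intro x y hxy
  have h1 : ∀ j, g j x ≠ g j y := fun j => (hg j x y hxy).1
  have h2 := hf (fun j => g j x) (fun j => g j y) h1
  exact ⟨h2.1, h2.2.trans (hg i x y hxy).2⟩

theorem hom_pol_of_good [LinearOrder B] [Nontrivial B] {ι : Type} {ar : ι → ℕ} {𝔸 : Str ι ar B}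
    (h : ∀ (n : ℕ) (f : (Fin n → B) → B), IsPol 𝔸 f → ∃ i, GoodB f i) : HomToProj (Pol 𝔸) :=
  hom_of_good (Pol 𝔸) (fun _ f i => GoodB f i) (fun n f hf => h (n + 1) f hf)
    (fun _ _ _ _ h h' => h.unique h' (fun _ _ h => h)) (fun _ i _ _ hxy => ⟨hxy i, Iff.rfl⟩)
    (fun _ _ _ _ _ _ hf hg => hf.comp hg)

theorem hom_type_of_good [LinearOrder B] [Nontrivial B] {ι : Type} {ar : ι → ℕ} {𝔸 : Str ι ar B}
    (h : ∀ (n : ℕ) (f : (Fin n → B) → B), IsPol 𝔸 f → ∃ i, GoodB f i) (H : Subgroup (Equiv.Perm B))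
    (hH : ∀ g ∈ H, StrictMono g) {m : ℕ} (hm : 2 ≤ m) : HomToProj (TypeClone H m 𝔸) := by
  refine hom_of_good (TypeClone H m 𝔸) (fun n F i => ∃ f : (Fin (n + 1) → B) → B, GoodB f i ∧
    ∀ a : Fin (n + 1) → Fin m → B, F (fun j => Quotient.mk (orb H (Fin m)) (a j)) =
      Quotient.mk (orb H (Fin m)) (fun l => f (fun j => a j l))) ?_ ?_ ?_ ?_
  · rintro n F ⟨f, hf, _, hF⟩
    obtain ⟨i, hi⟩ := h (n + 1) f hf
    exact ⟨i, f, hi, hF⟩
  · rintro n F i i' ⟨f, hf, hF⟩ ⟨f', hf', hF'⟩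
    refine hf.unique hf' (fun x y hxy => ?_)
    let a : Fin (n + 1) → Fin m → B := fun j l => if (l : ℕ) = 0 then x j else y j
    have e : Quotient.mk (orb H (Fin m)) (fun l => f (fun j => a j l)) =
        Quotient.mk (orb H (Fin m)) (fun l => f' (fun j => a j l)) := (hF a).symm.trans (hF' a)
    obtain ⟨g, hg, he⟩ : Same H (fun l => f (fun j => a j l)) (fun l => f' (fun j => a j l)) := Quotient.exact e
    have e0 : g (f x) = f' x := by simpa [a] using he ⟨0, by omega⟩
    have e1 : g (f y) = f' y := by simpa [a] using he ⟨1, by omega⟩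
    rw [← e0, ← e1]
    exact hH g hg hxy
  · intro n i
    exact ⟨fun x => x i, fun _ _ hxy => ⟨hxy i, Iff.rfl⟩, fun _ => rfl⟩
  · rintro n m' F Gs i L ⟨f, hf, hF⟩ hG
    choose g hg hG' using hG
    refine ⟨fun x => f (fun j => g j x), hf.comp hg, fun a => ?_⟩
    have h1 : (fun j => Gs j (fun l => Quotient.mk (orb H (Fin m)) (a l))) =
        fun j => Quotient.mk (orb H (Fin m)) (fun t => g j (fun l => a l t)) := funext (fun j => hG' j a)
    show F (fun j => Gs j (fun l => Quotient.mk (orb H (Fin m)) (a l))) = _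
    rw [h1, hF]

end Pool.Agent.X99.SY
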