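import Pool.Agent.X99.SY.E

/-!
Rich relations first-order define all invariant relations.
-/

set_option autoImplicit false

namespace Pool.Agent.X99.SY

open Pool.Agent.W994.AR

variable {B : Type}

/-- the relational first-order language with the relation symbols `i : ι` of arity `ar i` -/
def lang {ι : Type} (ar : ι → ℕ) : FirstOrder.Language.{0, 0} := ⟨fun _ => Empty, fun n => {i : ι // ar i = n}⟩

/-- `𝔸` as a structure of this language (in the sense of Mathlib) -/
@[reducible] def struc {ι : Type} {ar : ι → ℕ} (𝔸 : Str ι ar B) : (lang ar).Structure B where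
  funMap := fun {_} f _ => (f : Empty).elim
  RelMap := fun {n} (r : {i : ι // ar i = n}) v => (fun j : Fin (ar r.1) => v (Fin.cast r.2 j)) ∈ 𝔸 r.1

/-- `S` is first-order definable in `𝔸` without parameters -/
def FODef {ι : Type} {ar : ι → ℕ} (𝔸 : Str ι ar B) {V : Type} (S : Set (V → B)) : Prop :=
  letI := struc 𝔸
  (∅ : Set B).Definable (lang ar) S

section closure

variable {ι : Type} {ar : ι → ℕ} {𝔸 : Str ι ar B}

theorem FODef.rel (i : ι) : FODef 𝔸 (𝔸 i) := by
  let _ := struc 𝔸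
  show (∅ : Set B).Definable (lang ar) (𝔸 i)
  rw [Set.empty_definable_iff]
  refine ⟨FirstOrder.Language.Relations.formula (L := lang ar) (n := ar i) (⟨i, rfl⟩ : {j : ι // ar j = ar i})
    (fun j => FirstOrder.Language.Term.var j), ?_⟩
  ext v
  rw [Set.mem_ofPred, FirstOrder.Language.Formula.realize_rel]
  rfl

theorem FODef.eq : FODef 𝔸 {v : Fin 2 → B | v 0 = v 1} := by
  let _ := struc 𝔸
  show (∅ : Set B).Definable (lang ar) _
  exists (FirstOrder.Language.Term.var 0).equal (FirstOrder.Language.Term.var 1)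

theorem FODef.compl {V : Type} {S : Set (V → B)} (h : FODef 𝔸 S) : FODef 𝔸 Sᶜ := by
  let _ := struc 𝔸
  exact Set.Definable.compl h

theorem FODef.inter {V : Type} {S T : Set (V → B)} (h : FODef 𝔸 S) (h' : FODef 𝔸 T) : FODef 𝔸 (S ∩ T) := by
  let _ := struc 𝔸
  exact Set.Definable.inter h h'

theorem FODef.iInter {V α : Type} [Finite α] {S : α → Set (V → B)} (h : ∀ a, FODef 𝔸 (S a)) : FODef 𝔸 (⋂ a, S a) := by
  let _ := struc 𝔸
  exact Set.definable_iInter_of_finite h

theorem FODef.iUnion {V α : Type} [Finite α] {S : α → Set (V → B)} (h : ∀ a, FODef 𝔸 (S a)) : FODef 𝔸 (⋃ a, S a) := by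
  let _ := struc 𝔸
  exact Set.definable_iUnion_of_finite h

theorem FODef.preimage {V W : Type} (f : V → W) {S : Set (V → B)} (h : FODef 𝔸 S) :
    FODef 𝔸 {v : W → B | v ∘ f ∈ S} := by
  let _ := struc 𝔸
  exact Set.Definable.preimage_comp f h

theorem FODef.image {V W : Type} [Finite V] [Finite W] (f : V → W) {S : Set (W → B)} (h : FODef 𝔸 S) :
    FODef 𝔸 ((fun g : W → B => g ∘ f) '' S) := by
  let _ := struc 𝔸
  exact Set.Definable.image_comp h f

theorem FODef.univ (V : Type) : FODef 𝔸 (Set.univ : Set (V → B)) := by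
  have h := FODef.iInter (𝔸 := 𝔸) (V := V) (α := Empty) (S := fun a => a.elim) (fun a => a.elim)
  simpa using h

/-- the nonconstant tuples -/
theorem FODef.nc (V : Type) [Finite V] : FODef 𝔸 {v : V → B | NC v} := by
  have h : FODef 𝔸 (⋂ p : V × V, {v : V → B | v ∘ ![p.1, p.2] ∈ {v : Fin 2 → B | v 0 = v 1}})ᶜ :=
    (FODef.iInter (fun p : V × V => (FODef.eq (𝔸 := 𝔸)).preimage ![p.1, p.2])).compl
  convert h using 1
  ext v
  rw [Set.mem_compl_iff, Set.mem_iInter]
  constructor
  · rintro ⟨i, j, hij⟩ h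
    exact hij (h (i, j))
  · intro h
    by_contra hcon
    apply h
    rintro ⟨i, j⟩
    by_contra hij
    exact hcon ⟨i, j, hij⟩

end closure

/-- the orbits of nonconstant `M`-tuples are definable -/
theorem fo_big {G : Subgroup (Equiv.Perm B)} {ι : Type} {ar : ι → ℕ} {𝔸 : Str ι ar B} {M : ℕ} (i : ι)
    (hR : Invar G (𝔸 i)) (hrich : Rich G (Fin M) (𝔸 i)) {v : Fin M → B} (hv : NC v) :
    FODef 𝔸 {u : Fin M → B | Same G u v} := by
  obtain ⟨w, hw1, hw2⟩ := hrich v hv
  have h := (FODef.nc (𝔸 := 𝔸) (Fin M)).inter ((FODef.rel (𝔸 := 𝔸) i).preimage w).compl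
  convert h using 1
  ext u
  constructor
  · intro hu
    exact ⟨hu.symm.nc hv, fun h => hw1 ((hu.comp w).mem hR h)⟩
  · rintro ⟨hu1, hu2⟩
    by_contra hcon
    exact hu2 (hw2 u hu1 hcon)

/-- nonconstant extensions -/
theorem exists_nc [Nontrivial B] {q M : ℕ} (hq : 1 ≤ q) (hM : q < M) (v : Fin q → B) :
    ∃ v' : Fin M → B, NC v' ∧ v' ∘ Fin.castLE hM.le = v := by
  obtain ⟨b, hb⟩ := exists_ne (v ⟨0, hq⟩)
  refine ⟨fun j => if h : (j : ℕ) < q then v ⟨j, h⟩ else b, ⟨⟨0, by omega⟩, ⟨q, hM⟩, ?_⟩, ?_⟩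
  · simp only [lt_irrefl, dite_false]
    rw [dif_pos (by omega)]
    exact hb.symm
  · funext j
    simp

theorem fo_small [Nontrivial B] {G : Subgroup (Equiv.Perm B)} {ι : Type} {ar : ι → ℕ} {𝔸 : Str ι ar B} {M : ℕ} (i : ι)
    (hR : Invar G (𝔸 i)) (hrich : Rich G (Fin M) (𝔸 i)) {q : ℕ} (hq : 1 ≤ q) (hM : q < M) (v : Fin q → B) :
    FODef 𝔸 {u : Fin q → B | Same G u v} := by
  obtain ⟨v', hv', rfl⟩ := exists_nc hq hM v
  have h := (fo_big i hR hrich hv').image (Fin.castLE hM.le)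
  convert h using 1
  ext u
  constructor
  · rintro ⟨g, hg, h⟩
    refine ⟨fun j => g⁻¹ (v' j), ⟨g, hg, fun j => by simp⟩, ?_⟩
    funext j
    have := h j
    simp only [Function.comp] at this ⊢
    rw [← this]
    simp
  · rintro ⟨u', hu', rfl⟩
    exact Same.comp hu' _

theorem fo_all [Nontrivial B] {G : Subgroup (Equiv.Perm B)} (hfin : ∀ k, Finite (Orb G (Fin k))) {p : ℕ} (hp : 1 ≤ p)
    (hloc : Local G p) {ι : Type} {ar : ι → ℕ} {𝔸 : Str ι ar B} {M : ℕ} (hM : p < M) (i : ι)
    (hR : Invar G (𝔸 i)) (hrich : Rich G (Fin M) (𝔸 i)) {n : ℕ} {S : Set (Fin n → B)} (hS : Invar G S) :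
    FODef 𝔸 S := by
  classical
  rcases Nat.eq_zero_or_pos n with rfl | hn
  · by_cases h : S.Nonempty
    · have h1 : S = Set.univ := by
        obtain ⟨s, hs⟩ := h
        ext v
        have : v = s := Subsingleton.elim _ _
        simp [this, hs]
      rw [h1]
      exact FODef.univ _
    · have h1 : S = (Set.univ : Set (Fin 0 → B))ᶜ := by
        rw [Set.not_nonempty_iff_eq_empty.1 h, Set.compl_univ]
      rw [h1]
      exact (FODef.univ _).compl
  · have : Nonempty (Fin n) := ⟨⟨0, hn⟩⟩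
    have horb : ∀ v : Fin n → B, FODef 𝔸 {u : Fin n → B | Same G u v} := by
      intro v
      have h : FODef 𝔸 (⋂ s : Fin p → Fin n, {u : Fin n → B | u ∘ s ∈ {u : Fin p → B | Same G u (v ∘ s)}}) :=
        FODef.iInter (fun s => (fo_small i hR hrich hp hM (v ∘ s)).preimage s)
      convert h using 1
      ext u
      rw [Set.mem_iInter]
      constructor
      · intro hu s
        exact Same.comp hu s
      · intro h
        exact hloc (Fin n) u v h
    have hfn := hfin n
    have h : FODef 𝔸 (⋃ o : {o : Orb G (Fin n) // o.out ∈ S}, {u : Fin n → B | Same G u o.1.out}) :=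
      FODef.iUnion (fun o => horb _)
    convert h using 1
    ext u
    rw [Set.mem_iUnion]
    have h0 : Quotient.mk (orb G (Fin n)) (Quotient.mk (orb G (Fin n)) u).out = Quotient.mk (orb G (Fin n)) u :=
      Quotient.out_eq _
    have h1 : Same G (Quotient.mk (orb G (Fin n)) u).out u := Quotient.exact h0
    constructor
    · intro hu
      exact ⟨⟨Quotient.mk (orb G (Fin n)) u, h1.symm.mem hS hu⟩, h1.symm⟩
    · rintro ⟨o, ho⟩
      exact Same.mem (Same.symm ho) hS o.2

/-- no further automorphisms -/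
theorem aut_le [Nontrivial B] {σ : Type} {arB : σ → ℕ} {𝔹 : Str σ arB B} {ι : Type} {ar : ι → ℕ} {𝔸 : Str ι ar B}
    {M : ℕ} (hM : ∀ l, arB l < M) (i : ι) (hrich : Rich (autGroup 𝔹) (Fin M) (𝔸 i)) : autGroup 𝔸 ≤ autGroup 𝔹 := by
  intro h hh
  have hbig : ∀ v : Fin M → B, NC v → Same (autGroup 𝔹) (fun j => h (v j)) v := by
    intro v hv
    obtain ⟨w, hw1, hw2⟩ := hrich v hv
    by_contra hcon
    have h1 : NC (fun j => h (v j)) := by
      obtain ⟨a, b, hab⟩ := hv
      exact ⟨a, b, fun e => hab (h.injective e)⟩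
    have h2 := hw2 _ h1 hcon
    exact hw1 ((hh i (v ∘ w)).2 h2)
  intro l v
  rcases Nat.eq_zero_or_pos (arB l) with h0 | h0
  · have : v = fun j => h (v j) := by
      funext j
      exact absurd j.2 (by omega)
    rw [← this]
  · obtain ⟨v', hv', e⟩ := exists_nc h0 (hM l) v
    obtain ⟨g, hg, h3⟩ := hbig v' hv'
    have h4 : (fun j => g (h (v j))) = v := by
      funext j
      rw [← e]
      exact h3 _
    have h5 := hg l (fun j => h (v j))
    rw [h4] at h5
    exact h5.symm

theorem le_aut {G : Subgroup (Equiv.Perm B)} {ι : Type} {ar : ι → ℕ} {𝔸 : Str ι ar B} (h : ∀ i, Invar G (𝔸 i)) :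
    G ≤ autGroup 𝔸 := by
  intro g hg i v
  constructor
  · intro hv
    exact h i g hg v hv
  · intro hv
    have h1 := h i g⁻¹ (G.inv_mem hg) _ hv
    have h2 : (fun j => g⁻¹ (g (v j))) = v := by
      funext j
      simp
    rwa [h2] at h1

end Pool.Agent.X99.SY
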