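import Pool.Agent.X99.SY.K

/-!
First-order definable relations of a homogeneous structure in a finite relational language are the invariant relations.
-/

set_option autoImplicit false

namespace Pool.Agent.X99.SY

open Pool.Agent.W994.AR

variable {B : Type}

/-- automorphisms preserve formulas -/
theorem realize_invar {ι : Type} {ar : ι → ℕ} {𝔸 : Str ι ar B} {V : Type}
    (φ : (lang ar).Formula V) {g : Equiv.Perm B} (hg : g ∈ autGroup 𝔸) (v : V → B) :
    (let _ := struc 𝔸; φ.Realize (fun i => g (v i)) ↔ φ.Realize v) := by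
  let _ := struc 𝔸
  let e : FirstOrder.Language.Equiv (lang ar) B B :=
    { toEquiv := g
      map_fun' := fun {n} f _ => (f : Empty).elim
      map_rel' := fun {n} r x => (hg (r : {i : ι // ar i = n}).1
        (fun j => x (Fin.cast (r : {i : ι // ar i = n}).2 j))).symm }
  exact FirstOrder.Language.StrongHomClass.realize_formula e φ

theorem fo_invar {ι : Type} {ar : ι → ℕ} {𝔸 : Str ι ar B} {V : Type} {S : Set (V → B)} (h : FODef 𝔸 S) :
    Invar (autGroup 𝔸) S := by
  let _ := struc 𝔸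
  have h' : (∅ : Set B).Definable (lang ar) S := h
  rw [Set.empty_definable_iff] at h'
  obtain ⟨φ, rfl⟩ := h'
  intro g hg v hv
  exact (realize_invar φ hg v).2 hv

theorem fo_hom {σ : Type} [Finite σ] {ar : σ → ℕ} {𝔹 : Str σ ar B} (hB : Homogeneous 𝔹) {n : ℕ}
    {S : Set (Fin n → B)} (hS : Invar (autGroup 𝔹) S) : FODef 𝔹 S := by
  classical
  have horb : ∀ v : Fin n → B, FODef 𝔹 {u : Fin n → B | Same (autGroup 𝔹) u v} := by
    intro v
    have h1 : FODef 𝔹 (⋂ p : Fin n × Fin n, {u : Fin n → B | u p.1 = u p.2 ↔ v p.1 = v p.2}) := by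
      refine FODef.iInter (fun p => ?_)
      have h2 : FODef 𝔹 {u : Fin n → B | u ∘ ![p.1, p.2] ∈ {v : Fin 2 → B | v 0 = v 1}} :=
        (FODef.eq (𝔸 := 𝔹)).preimage ![p.1, p.2]
      by_cases h : v p.1 = v p.2
      · convert h2 using 1
        ext u
        exact ⟨fun h' => h'.2 h, fun h' => ⟨fun _ => h, fun _ => h'⟩⟩
      · convert h2.compl using 1
        ext u
        exact ⟨fun h' h'' => h (h'.1 h''), fun h' => ⟨fun h'' => absurd h'' h', fun h'' => absurd h'' h⟩⟩
    have h3 : FODef 𝔹 (⋂ p : (Σ i : σ, (Fin (ar i) → Fin n)), {u : Fin n → B | u ∘ p.2 ∈ 𝔹 p.1 ↔ v ∘ p.2 ∈ 𝔹 p.1}) := by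
      refine FODef.iInter (fun p => ?_)
      have h2 : FODef 𝔹 {u : Fin n → B | u ∘ p.2 ∈ 𝔹 p.1} := (FODef.rel (𝔸 := 𝔹) p.1).preimage p.2
      by_cases h : v ∘ p.2 ∈ 𝔹 p.1
      · convert h2 using 1
        ext u
        exact ⟨fun h' => h'.2 h, fun h' => ⟨fun _ => h, fun _ => h'⟩⟩
      · convert h2.compl using 1
        ext u
        exact ⟨fun h' h'' => h (h'.1 h''), fun h' => ⟨fun h'' => absurd h'' h', fun h'' => absurd h'' h⟩⟩
    convert h1.inter h3 using 1
    ext u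
    rw [Set.mem_inter_iff, Set.mem_iInter, Set.mem_iInter]
    constructor
    · rintro ⟨g, hg, h⟩
      refine ⟨fun p => ?_, fun p => ?_⟩
      · show u p.1 = u p.2 ↔ v p.1 = v p.2
        rw [← h, ← h]
        exact ⟨fun h => by rw [h], fun h => g.injective h⟩
      · show u ∘ p.2 ∈ 𝔹 p.1 ↔ v ∘ p.2 ∈ 𝔹 p.1
        have h4 := hg p.1 (u ∘ p.2)
        have h5 : (fun j => g ((u ∘ p.2) j)) = v ∘ p.2 := by
          funext j
          exact h _
        rw [h5] at h4
        exact h4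
    · rintro ⟨h4, h5⟩
      exact hom_same hB _ _ (fun i j => h4 (i, j)) (fun i s => h5 ⟨i, s⟩)
  have hfn : Finite (Orb (autGroup 𝔹) (Fin n)) := hom_finite hB (Fin n)
  have h : FODef 𝔹 (⋃ o : {o : Orb (autGroup 𝔹) (Fin n) // o.out ∈ S},
      {u : Fin n → B | Same (autGroup 𝔹) u o.1.out}) := FODef.iUnion (fun o => horb _)
  convert h using 1
  ext u
  rw [Set.mem_iUnion]
  have h0 : Quotient.mk (orb (autGroup 𝔹) (Fin n)) (Quotient.mk (orb (autGroup 𝔹) (Fin n)) u).out =
      Quotient.mk (orb (autGroup 𝔹) (Fin n)) u := Quotient.out_eq _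
  have h1 : Same (autGroup 𝔹) (Quotient.mk (orb (autGroup 𝔹) (Fin n)) u).out u := Quotient.exact h0
  constructor
  · intro hu
    exact ⟨⟨Quotient.mk (orb (autGroup 𝔹) (Fin n)) u, h1.symm.mem hS hu⟩, h1.symm⟩
  · rintro ⟨o, ho⟩
    exact Same.mem (Same.symm ho) hS o.2

end Pool.Agent.X99.SY
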