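import Pool.Agent.X99.SY.L
import Pool.Agent.X99.SY.G

/-!
Structures in which the injective invariant relations of small arities are pp-definable are interdefinable with the homogeneous
structure.
-/

set_option autoImplicit false

namespace Pool.Agent.X99.SY

open Pool.Agent.W994.AR

variable {B : Type}

/-- pp-definable relations are first-order definable -/
theorem fo_of_pp {ι : Type} {ar : ι → ℕ} {𝔸 : Str ι ar B} {V : Type} [Finite V] {S : Set (V → B)} (h : PPDef 𝔸 S) :
    FODef 𝔸 S := by
  obtain ⟨q, Φ, h⟩ := h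
  have h1 : ∀ φ : Atom ι ar (V ⊕ Fin q), FODef 𝔸 {w : V ⊕ Fin q → B | φ.Holds 𝔸 w} := by
    intro φ
    cases φ with
    | eq x y => exact (FODef.eq (𝔸 := 𝔸)).preimage ![x, y]
    | rel i x => exact (FODef.rel (𝔸 := 𝔸) i).preimage x
  have hfin : Finite {φ : Atom ι ar (V ⊕ Fin q) // φ ∈ Φ} := by
    classical
    exact Set.Finite.to_subtype (List.finite_toSet Φ)
  have h2 : FODef 𝔸 (⋂ φ : {φ : Atom ι ar (V ⊕ Fin q) // φ ∈ Φ}, {w : V ⊕ Fin q → B | φ.1.Holds 𝔸 w}) :=
    FODef.iInter (fun φ => h1 φ.1)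
  have h3 := h2.image (Sum.inl : V → V ⊕ Fin q)
  convert h3 using 1
  ext v
  rw [h v]
  constructor
  · rintro ⟨u, hu⟩
    refine ⟨Sum.elim v u, ?_, rfl⟩
    rw [Set.mem_iInter]
    intro φ
    exact hu φ.1 φ.2
  · rintro ⟨w, hw, rfl⟩
    rw [Set.mem_iInter] at hw
    refine ⟨fun x => w (Sum.inr x), fun φ hφ => ?_⟩
    have h4 := hw ⟨φ, hφ⟩
    have h5 : Sum.elim (w ∘ Sum.inl) (fun x => w (Sum.inr x)) = w := by
      funext x
      cases x <;> rfl
    show φ.Holds 𝔸 (Sum.elim (w ∘ Sum.inl) (fun x => w (Sum.inr x)))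
    rw [h5]
    exact h4

/-- every tuple is obtained from an injective one -/
theorem exists_factor {p : ℕ} (v : Fin p → B) :
    ∃ (q : ℕ) (v' : Fin q → B) (s : Fin p → Fin q), q ≤ p ∧ Function.Injective v' ∧ v = v' ∘ s := by
  classical
  obtain ⟨q, ⟨e⟩⟩ := Finite.exists_equiv_fin (Set.range v)
  refine ⟨q, fun j => (e.symm j).1, fun i => e ⟨v i, i, rfl⟩, ?_, ?_, ?_⟩
  · have h1 : Nat.card (Set.range v) = q := by
      rw [Nat.card_congr e, Nat.card_eq_fintype_card, Fintype.card_fin]
    rw [← h1]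
    have h2 := Nat.card_le_card_of_surjective (Set.rangeFactorization v) Set.rangeFactorization_surjective
    simpa using h2
  · intro i j h
    exact e.symm.injective (Subtype.ext h)
  · funext i
    simp

theorem fo_all_of_inj {G : Subgroup (Equiv.Perm B)} (hfin : ∀ k, Finite (Orb G (Fin k))) {p : ℕ}
    (hloc : Local G p) {ι : Type} {ar : ι → ℕ} {𝔸 : Str ι ar B}
    (hpp : ∀ q, q ≤ p → ∀ S : Set (Fin q → B), Invar G S → (∀ v ∈ S, Function.Injective v) → PPDef 𝔸 S)
    {n : ℕ} {S : Set (Fin n → B)} (hS : Invar G S) : FODef 𝔸 S := by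
  classical
  have hsmall : ∀ v : Fin p → B, FODef 𝔸 {u : Fin p → B | Same G u v} := by
    intro v
    obtain ⟨q, v', s, hq, hv', rfl⟩ := exists_factor v
    have h1 : PPDef 𝔸 {u : Fin q → B | Same G v' u} := by
      refine hpp q hq _ ?_ ?_
      · intro g hg u hu
        exact hu.trans ⟨g, hg, fun _ => rfl⟩
      · rintro u ⟨g, _, hu⟩ i j hij
        rw [← hu, ← hu] at hij
        exact hv' (g.injective hij)
    have h2 := (fo_of_pp h1).image s
    convert h2 using 1
    ext u
    constructor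
    · rintro ⟨g, hg, h⟩
      refine ⟨fun j => g⁻¹ (v' j), ⟨g⁻¹, G.inv_mem hg, fun _ => rfl⟩, ?_⟩
      funext j
      have := h j
      simp only [Function.comp] at this ⊢
      rw [← this]
      simp
    · rintro ⟨u', hu', rfl⟩
      exact Same.comp (Same.symm hu') _
  rcases Nat.eq_zero_or_pos n with rfl | hn
  · by_cases h : S.Nonempty
    · have h1 : S = Set.univ := by
        obtain ⟨s, hs⟩ := h
        ext v
        have : v = s := Subsingleton.elim _ _
        simp [this, hs]
      rw [h1]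
      exact FODef.univ _
    · have h1 : S = (Set.univ : Set (Fin 0 → B))ᶜ := by
        rw [Set.not_nonempty_iff_eq_empty.1 h, Set.compl_univ]
      rw [h1]
      exact (FODef.univ _).compl
  · have : Nonempty (Fin n) := ⟨⟨0, hn⟩⟩
    have horb : ∀ v : Fin n → B, FODef 𝔸 {u : Fin n → B | Same G u v} := by
      intro v
      have h : FODef 𝔸 (⋂ s : Fin p → Fin n, {u : Fin n → B | u ∘ s ∈ {u : Fin p → B | Same G u (v ∘ s)}}) :=
        FODef.iInter (fun s => (hsmall (v ∘ s)).preimage s)
      convert h using 1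
      ext u
      rw [Set.mem_iInter]
      constructor
      · intro hu s
        exact Same.comp hu s
      · intro h
        exact hloc (Fin n) u v h
    have hfn := hfin n
    have h : FODef 𝔸 (⋃ o : {o : Orb G (Fin n) // o.out ∈ S}, {u : Fin n → B | Same G u o.1.out}) :=
      FODef.iUnion (fun o => horb _)
    convert h using 1
    ext u
    rw [Set.mem_iUnion]
    have h0 : Quotient.mk (orb G (Fin n)) (Quotient.mk (orb G (Fin n)) u).out = Quotient.mk (orb G (Fin n)) u :=
      Quotient.out_eq _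
    have h1 : Same G (Quotient.mk (orb G (Fin n)) u).out u := Quotient.exact h0
    constructor
    · intro hu
      exact ⟨⟨Quotient.mk (orb G (Fin n)) u, h1.symm.mem hS hu⟩, h1.symm⟩
    · rintro ⟨o, ho⟩
      exact Same.mem (Same.symm ho) hS o.2

end Pool.Agent.X99.SY
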